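import Pool.Agent.Work.MP_7794fd_co.M.Stmts

/-! Project MP_7794fd_co, block M, item Circ: the circuit of a pattern. -/

set_option autoImplicit false
set_option linter.unusedSectionVars false

namespace Pool.Agent.Work.MP_7794fd_co.M

open Finset Pool.Agent.Work.MP_7794fd_co.R

namespace CircAux

variable {V E : Type} [Fintype V] [DecidableEq V] [Fintype E] [DecidableEq E] {G : MG V E}

lemma linked_symm {W : Set V} {X : Finset E} {a b : E} (h : Linked G W X a b) :
    Linked G W X b a := by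
  induction h with
  | refl => exact Relation.ReflTransGen.refl
  | tail _ hs ih =>
    obtain ⟨h1, h2, v, hv, hva, hvb⟩ := hs
    exact (Relation.ReflTransGen.single ⟨h2, h1, v, hv, hvb, hva⟩).trans ih

lemma linked_mono {W : Set V} {X Y : Finset E} (hXY : X ⊆ Y) {a b : E}
    (h : Linked G W X a b) : Linked G W Y a b := by
  refine Relation.ReflTransGen.mono ?_ _ _ h
  rintro x y ⟨h1, h2, v, hv, hva, hvb⟩
  exact ⟨hXY h1, hXY h2, v, hv, hva, hvb⟩

lemma linked_one {X : Finset E} {a b : E} (ha : a ∈ X) (hb : b ∈ X) {v : V}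
    (h1 : v ∈ G.ends a) (h2 : v ∈ G.ends b) : Linked G Set.univ X a b :=
  Relation.ReflTransGen.single ⟨ha, hb, v, trivial, h1, h2⟩

/-- the index before `i` -/
def prev (n i : ℕ) : ℕ := if i = 0 then n - 1 else i - 1

lemma prev_lt {n i : ℕ} (h2 : 2 ≤ n) (hi : i < n) : prev n i < n := by
  unfold prev
  split_ifs <;> omega

lemma prev_ne {n i : ℕ} (h2 : 2 ≤ n) : prev n i ≠ i := by
  unfold prev
  split_ifs <;> omega

lemma succ_prev {n i : ℕ} (h2 : 2 ≤ n) (hi : i < n) : (prev n i + 1) % n = i := by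
  unfold prev
  split_ifs with h
  · subst h
    rw [Nat.sub_add_cancel (by omega)]
    exact Nat.mod_self n
  · rw [Nat.sub_add_cancel (by omega)]
    exact Nat.mod_eq_of_lt hi

lemma eq_prev {n i j : ℕ} (hj : j < n) (h : i = (j + 1) % n) : j = prev n i := by
  unfold prev
  rcases Nat.lt_or_ge (j + 1) n with h1 | h1
  · rw [Nat.mod_eq_of_lt h1] at h
    rw [if_neg (by omega)]
    omega
  · have h3 : j + 1 = n := by omega
    rw [h3, Nat.mod_self] at h
    rw [if_pos h]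
    omega

section

variable {C Q D : Finset E} {n : ℕ} {f : ℕ → V} {c : ℕ → E} {F : Finset ℕ} {pr : ℕ → ℕ}

lemma mem_ends (hcyc : IsCyc G C n f c) {i j : ℕ} (hi : i < n) (hj : j < n) :
    f i ∈ G.ends (c j) ↔ (j = i ∨ j = prev n i) := by
  have h2 := hcyc.two
  rw [hcyc.ends j hj, Sym2.mem_iff]
  constructor
  · rintro (h | h)
    · exact Or.inl (hcyc.injf i hi j hj h).symm
    · right
      exact eq_prev hj (hcyc.injf i hi _ (Nat.mod_lt _ (by omega)) h)
  · rintro (h | h)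
    · left
      rw [h]
    · right
      rw [h, succ_prev h2 hi]

/-- membership of `i` in the set of the used positions -/
lemma mem_P (hlt : ∀ i ∈ F, i + 1 < n) {i : ℕ} (hi : i < n) :
    i ∈ F ∪ F.image (· + 1) ↔ i ∈ F ∨ prev n i ∈ F := by
  rw [Finset.mem_union, Finset.mem_image]
  constructor
  · rintro (h | ⟨j, hj, hji⟩)
    · exact Or.inl h
    · right
      unfold prev
      rw [if_neg (by omega)]
      have : i - 1 = j := by omega
      rwa [this]
  · rintro (h | h)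
    · exact Or.inl h
    · right
      unfold prev at h
      split_ifs at h with h0
      · have := hlt _ h
        omega
      · exact ⟨i - 1, h, by show i - 1 + 1 = i; omega⟩

lemma not_both (hlt : ∀ i ∈ F, i + 1 < n) (hF : ∀ i ∈ F, i + 1 ∉ F) {i : ℕ} :
    ¬ (i ∈ F ∧ prev n i ∈ F) := by
  rintro ⟨h1, h2⟩
  unfold prev at h2
  split_ifs at h2 with h0
  · have := hlt _ h2
    have := hlt _ h1
    omega
  · have := hF _ h2
    rw [Nat.sub_add_cancel (by omega)] at this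
    exact this h1

lemma deg_split (hCQ : Disjoint C Q)
    (hD : ∀ e, e ∈ D ↔ e ∈ Q ∨ (e ∈ C ∧ ∀ i ∈ F, c i ≠ e)) (v : V) :
    deg G D v = deg G Q v + ((D \ Q).filter (fun e => v ∈ G.ends e)).card := by
  unfold deg
  rw [← Finset.card_union_of_disjoint]
  · congr 1
    ext e
    simp only [Finset.mem_filter, Finset.mem_union, Finset.mem_sdiff]
    constructor
    · rintro ⟨h1, h2⟩
      by_cases h : e ∈ Q
      · exact Or.inl ⟨h, h2⟩
      · exact Or.inr ⟨⟨h1, h⟩, h2⟩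
    · rintro (⟨h1, h2⟩ | ⟨⟨h1, _⟩, h2⟩)
      · exact ⟨(hD e).2 (Or.inl h1), h2⟩
      · exact ⟨h1, h2⟩
  · rw [Finset.disjoint_left]
    intro e h1 h2
    simp only [Finset.mem_filter, Finset.mem_sdiff] at h1 h2
    exact h2.1.2 h1.1

lemma mem_D_c (hcyc : IsCyc G C n f c) (hCQ : Disjoint C Q) (hlt : ∀ i ∈ F, i + 1 < n)
    (hD : ∀ e, e ∈ D ↔ e ∈ Q ∨ (e ∈ C ∧ ∀ i ∈ F, c i ≠ e)) {i : ℕ} (hi : i < n) :
    c i ∈ D ↔ i ∉ F := by
  have hC : c i ∈ C := (hcyc.memc _).2 ⟨i, hi, rfl⟩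
  rw [hD]
  constructor
  · rintro (h | ⟨_, h⟩) hF
    · exact (Finset.disjoint_left.1 hCQ) hC h
    · exact h i hF rfl
  · intro h
    refine Or.inr ⟨hC, fun j hj hji => h ?_⟩
    have := hcyc.injc j (by have := hlt j hj; omega) i hi hji
    rwa [← this]

lemma filter_eq (hcyc : IsCyc G C n f c) (hCQ : Disjoint C Q) (hlt : ∀ i ∈ F, i + 1 < n)
    (hD : ∀ e, e ∈ D ↔ e ∈ Q ∨ (e ∈ C ∧ ∀ i ∈ F, c i ≠ e)) {i : ℕ} (hi : i < n) :
    (D \ Q).filter (fun e => f i ∈ G.ends e) =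
      (({i, prev n i} : Finset ℕ).filter (fun j => j ∉ F)).image c := by
  have h2 := hcyc.two
  ext e
  simp only [Finset.mem_filter, Finset.mem_sdiff, Finset.mem_image, Finset.mem_insert,
    Finset.mem_singleton]
  constructor
  · rintro ⟨⟨h3, h4⟩, h5⟩
    rcases (hD e).1 h3 with h6 | ⟨h6, h7⟩
    · exact absurd h6 h4
    · obtain ⟨j, hj, hcj⟩ := (hcyc.memc e).1 h6
      refine ⟨j, ⟨?_, fun hjF => h7 j hjF hcj⟩, hcj⟩
      rw [← hcj] at h5
      exact (mem_ends hcyc hi hj).1 h5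
  · rintro ⟨j, ⟨h3, h4⟩, h5⟩
    have hj : j < n := by
      rcases h3 with h3 | h3
      · rw [h3]; exact hi
      · rw [h3]; exact prev_lt h2 hi
    subst h5
    refine ⟨⟨(mem_D_c hcyc hCQ hlt hD hj).2 h4, ?_⟩, ?_⟩
    · exact (Finset.disjoint_left.1 hCQ) ((hcyc.memc _).2 ⟨j, hj, rfl⟩)
    · exact (mem_ends hcyc hi hj).2 h3

lemma card_filter (hcyc : IsCyc G C n f c) (hCQ : Disjoint C Q) (hlt : ∀ i ∈ F, i + 1 < n)
    (hD : ∀ e, e ∈ D ↔ e ∈ Q ∨ (e ∈ C ∧ ∀ i ∈ F, c i ≠ e)) {i : ℕ} (hi : i < n) :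
    ((D \ Q).filter (fun e => f i ∈ G.ends e)).card =
      (if i ∉ F then 1 else 0) + (if prev n i ∉ F then 1 else 0) := by
  have h2 := hcyc.two
  rw [filter_eq hcyc hCQ hlt hD hi, Finset.card_image_of_injOn]
  · have hne : i ≠ prev n i := (prev_ne h2).symm
    rw [Finset.filter_insert, Finset.filter_singleton]
    by_cases h3 : i ∈ F <;> by_cases h4 : prev n i ∈ F <;> simp [h3, h4, hne]
  · intro a ha b hb hab
    have hl : ∀ j, j ∈ (({i, prev n i} : Finset ℕ).filter (fun j => j ∉ F)) → j < n := by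
      intro j hj
      simp only [Finset.mem_filter, Finset.mem_insert, Finset.mem_singleton] at hj
      rcases hj.1 with h3 | h3
      · rw [h3]; exact hi
      · rw [h3]; exact prev_lt h2 hi
    exact hcyc.injc a (hl a ha) b (hl b hb) hab

lemma deg_f (hcyc : IsCyc G C n f c) (hlt : ∀ i ∈ F, i + 1 < n) (hF : ∀ i ∈ F, i + 1 ∉ F)
    (hQ : IsQ0 G C n f (F ∪ F.image (· + 1)) pr Q)
    (hD : ∀ e, e ∈ D ↔ e ∈ Q ∨ (e ∈ C ∧ ∀ i ∈ F, c i ≠ e)) {i : ℕ} (hi : i < n) :
    deg G D (f i) = 2 := by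
  rw [deg_split hQ.disj hD (f i), card_filter hcyc hQ.disj hlt hD hi, hQ.degC i hi]
  have h1 := mem_P hlt hi
  have h2 := not_both hlt hF (i := i)
  by_cases h3 : i ∈ F
  · have h4 : prev n i ∉ F := fun h => h2 ⟨h3, h⟩
    rw [if_pos (h1.2 (Or.inl h3)), if_neg (not_not.2 h3), if_pos h4]
  · by_cases h4 : prev n i ∈ F
    · rw [if_pos (h1.2 (Or.inr h4)), if_pos h3, if_neg (not_not.2 h4)]
    · have h5 : i ∉ F ∪ F.image (· + 1) := by
        rw [h1]
        rintro (h | h)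
        · exact h3 h
        · exact h4 h
      rw [if_neg h5, if_pos h3, if_pos h4]

lemma deg_D (hcyc : IsCyc G C n f c) (hlt : ∀ i ∈ F, i + 1 < n) (hF : ∀ i ∈ F, i + 1 ∉ F)
    (hQ : IsQ0 G C n f (F ∪ F.image (· + 1)) pr Q)
    (hD : ∀ e, e ∈ D ↔ e ∈ Q ∨ (e ∈ C ∧ ∀ i ∈ F, c i ≠ e)) (v : V) :
    deg G D v = 0 ∨ deg G D v = 2 := by
  by_cases hv : v ∈ verts G C
  · obtain ⟨i, hi, rfl⟩ := (hcyc.memf v).1 hv
    exact Or.inr (deg_f hcyc hlt hF hQ hD hi)
  · rw [deg_split hQ.disj hD v]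
    have h0 : ((D \ Q).filter (fun e => v ∈ G.ends e)).card = 0 := by
      rw [Finset.card_eq_zero, Finset.filter_eq_empty_iff]
      intro e he hve
      rw [Finset.mem_sdiff] at he
      rcases (hD e).1 he.1 with h6 | ⟨h6, _⟩
      · exact he.2 h6
      · exact hv ⟨e, h6, hve⟩
    rw [h0, Nat.add_zero]
    exact hQ.degO v hv

lemma exists_Q (hQ : IsQ0 G C n f (F ∪ F.image (· + 1)) pr Q) {i : ℕ} (hi : i < n)
    (hp : i ∈ F ∪ F.image (· + 1)) : ∃ a ∈ Q, f i ∈ G.ends a := by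
  have h := hQ.degC i hi
  rw [if_pos hp] at h
  unfold deg at h
  obtain ⟨e, he⟩ := Finset.card_pos.1 (by rw [h]; norm_num)
  rw [Finset.mem_filter] at he
  exact ⟨e, he.1, he.2⟩

end

end CircAux

open CircAux in
open Classical in
theorem Circ_pf : S_Circ := by
  intro V E L _ _ _ _ _ G C n f c w F pr Q _ _ hcyc hpat hF hpr hQ
  have h2 := hcyc.two
  have hlt : ∀ i ∈ F, i + 1 < n := hpat.lt
  obtain ⟨D, hD⟩ : ∃ D : Finset E, ∀ e, e ∈ D ↔ e ∈ Q ∨ (e ∈ C ∧ ∀ i ∈ F, c i ≠ e) :=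
    ⟨Finset.univ.filter (fun e => e ∈ Q ∨ (e ∈ C ∧ ∀ i ∈ F, c i ≠ e)), by simp⟩
  have hQD : Q ⊆ D := fun e he => (hD e).2 (Or.inl he)
  have hcD : ∀ i, i < n → (c i ∈ D ↔ i ∉ F) := fun i hi => mem_D_c hcyc hQ.disj hlt hD hi
  have hPn : ∀ i ∈ F ∪ F.image (· + 1), i < n := by
    intro i hi
    rw [Finset.mem_union, Finset.mem_image] at hi
    rcases hi with h | ⟨j, hj, hji⟩
    · have := hlt i h
      omega
    · have := hlt j hj
      omega
  have hlastF : n - 1 ∉ F := fun h => by have := hlt _ h; omega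
  have he0 : c (n - 1) ∈ D := (hcD (n - 1) (by omega)).2 hlastF
  have hlast1 : f (n - 1) ∈ G.ends (c (n - 1)) :=
    (mem_ends hcyc (by omega) (by omega)).2 (Or.inl rfl)
  have hlast0 : f 0 ∈ G.ends (c (n - 1)) := by
    refine (mem_ends hcyc (by omega) (by omega)).2 (Or.inr ?_)
    unfold prev
    rw [if_pos rfl]
  -- the labels
  let lamP : ℕ → Prop := fun i => ∃ e ∈ D, f i ∈ G.ends e ∧ Linked G Set.univ D (c (n - 1)) e
  have hlamE : ∀ i, ∀ e ∈ D, f i ∈ G.ends e →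
      (lamP i ↔ Linked G Set.univ D (c (n - 1)) e) := by
    intro i e he hfe
    constructor
    · rintro ⟨e', he', hfe', hl⟩
      exact hl.trans (linked_one he' he hfe' hfe)
    · intro hl
      exact ⟨e, he, hfe, hl⟩
  have hstep : ∀ i j, i < n → j < n → ∀ e ∈ D, f i ∈ G.ends e → f j ∈ G.ends e →
      (lamP i ↔ lamP j) := by
    intro i j _ _ e he h1 h2
    rw [hlamE i e he h1, hlamE j e he h2]
  have hpair : ∀ i ∈ F ∪ F.image (· + 1), (lamP i ↔ lamP (pr i)) := by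
    intro i hi
    obtain ⟨h1, h3, h4, h5, h6⟩ := hpr i hi
    obtain ⟨a, ha, hfa⟩ := exists_Q hQ (hPn i hi) hi
    obtain ⟨b, hb, hfb⟩ := exists_Q hQ (hPn _ h1) h1
    have hl := linked_mono hQD (hQ.link i hi a ha b hb hfa hfb)
    rw [hlamE i a (hQD ha) hfa, hlamE (pr i) b (hQD hb) hfb]
    exact ⟨fun h => h.trans hl, fun h => h.trans (linked_symm hl)⟩
  have hmu : ∀ i ∈ F ∪ F.image (· + 1),
      (lamP i ↔ ∃ j ∈ F ∪ F.image (· + 1), w j = w i ∧ lamP j) := by
    intro i hi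
    constructor
    · intro h
      exact ⟨i, hi, rfl, h⟩
    · rintro ⟨j, hj, hw, hl⟩
      obtain ⟨h1, h3, h4, h5, h6⟩ := hpr i hi
      rcases h6 j hj hw with h | h
      · rwa [← h]
      · rw [hpair i hi, ← h]
        exact hl
  have hcomp : Comp w 0 (n - 1) F (fun i => decide (lamP i))
      (fun x => decide (∃ j ∈ F ∪ F.image (· + 1), w j = x ∧ lamP j)) := by
    constructor
    · intro i _ hi hiF
      show decide (lamP i) = decide (lamP (i + 1))
      rw [decide_eq_decide]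
      refine hstep i (i + 1) (by omega) (by omega) (c i) ((hcD i (by omega)).2 hiF)
        ((mem_ends hcyc (by omega) (by omega)).2 (Or.inl rfl))
        ((mem_ends hcyc (by omega) (by omega)).2 (Or.inr ?_))
      unfold prev
      rw [if_neg (by omega)]
      omega
    · intro i _ _ hiF
      show decide (lamP i) = decide (∃ j ∈ F ∪ F.image (· + 1), w j = w i ∧ lamP j)
      rw [decide_eq_decide]
      exact hmu i (Finset.mem_union_left _ hiF)
    · intro i _ _ hiF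
      show decide (lamP (i + 1)) = decide (∃ j ∈ F ∪ F.image (· + 1), w j = w (i + 1) ∧ lamP j)
      rw [decide_eq_decide]
      exact hmu (i + 1) (Finset.mem_union_right _ (Finset.mem_image.2 ⟨i, hiF, rfl⟩))
  have hconn := hpat.conn _ _ hcomp
    (by
      show decide (lamP 0) = decide (lamP (n - 1))
      rw [decide_eq_decide]
      exact hstep 0 (n - 1) (by omega) (by omega) _ he0 hlast0 hlast1)
  have hlast : lamP (n - 1) := ⟨_, he0, hlast1, Relation.ReflTransGen.refl⟩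
  have hall : ∀ i < n, lamP i := by
    have h0 : ∀ i < n, (lamP i ↔ lamP 0) := by
      intro i hi
      have := hconn i hi
      rwa [decide_eq_decide] at this
    intro i hi
    exact (h0 i hi).2 ((h0 (n - 1) (by omega)).1 hlast)
  have hlink : ∀ e ∈ D, Linked G Set.univ D (c (n - 1)) e := by
    intro e he
    rcases (hD e).1 he with h | ⟨h, _⟩
    · obtain ⟨i, hi, b, hb, hfb, hlb⟩ := hQ.meet e h
      have h1 := (hlamE i b (hQD hb) hfb).1 (hall i (hPn i hi))
      exact h1.trans (linked_symm (linked_mono hQD hlb))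
    · obtain ⟨i, hi, hci⟩ := (hcyc.memc e).1 h
      have hfe : f i ∈ G.ends e := by
        rw [← hci]
        exact (mem_ends hcyc hi hi).2 (Or.inl rfl)
      exact (hlamE i e he hfe).1 (hall i hi)
  refine ⟨D, ⟨⟨_, he0⟩, deg_D hcyc hlt hF hQ hD, ?_⟩, ?_, ?_, he0⟩
  · intro e he e' he'
    exact (linked_symm (hlink e he)).trans (hlink e' he')
  · intro hDC
    obtain ⟨i, hi⟩ := hpat.ne
    have hin : i < n := by have := hlt i hi; omega
    have h1 : c i ∈ C := (hcyc.memc _).2 ⟨i, hin, rfl⟩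
    rw [← hDC] at h1
    exact ((hcD i hin).1 h1) hi
  · intro v hv
    obtain ⟨i, hi, rfl⟩ := (hcyc.memf v).1 hv
    have h := deg_f hcyc hlt hF hQ hD hi
    unfold deg at h
    obtain ⟨e, he⟩ := Finset.card_pos.1 (by rw [h]; norm_num)
    rw [Finset.mem_filter] at he
    exact ⟨e, he.1, he.2⟩

end Pool.Agent.Work.MP_7794fd_co.M
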