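import Pool.Agent.Work.MP_7794fd_co.M.Fin
import Pool.Agent.Work.MP_7794fd_co.R.Cyc

/-! Project MP_7794fd_co, block M, item CycEdge: a cyclic enumeration which ends with a prescribed
edge (a rotation of the enumeration of `R/Cyc.lean`). -/

set_option autoImplicit false

namespace Pool.Agent.Work.MP_7794fd_co.M

open Finset Pool.Agent.Work.MP_7794fd_co.R

namespace I_CycEdge

lemma modinj (n k i j : ℕ) (hi : i < n) (hj : j < n) (h : (i + k) % n = (j + k) % n) :
    i = j := by
  have h1 : i + k ≡ j + k [MOD n] := h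
  have h2 : i ≡ j [MOD n] := Nat.ModEq.add_right_cancel' k h1
  exact Nat.ModEq.eq_of_lt_of_lt h2 hi hj

lemma modsurj (n k i : ℕ) (hi : i < n) : ∃ j < n, (j + k) % n = i := by
  have hn : 0 < n := by omega
  refine ⟨(i + (n - k % n)) % n, Nat.mod_lt _ hn, ?_⟩
  have hk : k % n < n := Nat.mod_lt _ hn
  have h1 : (i + (n - k % n)) % n + k ≡ i [MOD n] := by
    have e1 : (i + (n - k % n)) % n ≡ i + (n - k % n) [MOD n] := Nat.mod_modEq _ _
    have e2 : k ≡ k % n [MOD n] := (Nat.mod_modEq _ _).symm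
    have e3 := Nat.ModEq.add e1 e2
    have e4 : i + (n - k % n) + k % n = i + n := by omega
    rw [e4] at e3
    exact e3.trans (by simp [Nat.ModEq])
  have h2 : ((i + (n - k % n)) % n + k) % n = i % n := h1
  rw [h2]
  exact Nat.mod_eq_of_lt hi

lemma rot {V E : Type} (G : MG V E) (C : Finset E) (n : ℕ) (f : ℕ → V) (c : ℕ → E)
    (h : IsCyc G C n f c) (k : ℕ) :
    IsCyc G C n (fun j => f ((j + k) % n)) (fun j => c ((j + k) % n)) := by
  have hn : 0 < n := by have := h.two; omega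
  refine ⟨h.two, ?_, ?_, ?_, ?_, ?_⟩
  · intro i hi j hj hij
    exact modinj n k i j hi hj (h.injf _ (Nat.mod_lt _ hn) _ (Nat.mod_lt _ hn) hij)
  · intro i hi j hj hij
    exact modinj n k i j hi hj (h.injc _ (Nat.mod_lt _ hn) _ (Nat.mod_lt _ hn) hij)
  · intro e
    rw [h.memc]
    constructor
    · rintro ⟨i, hi, rfl⟩
      obtain ⟨j, hj, hji⟩ := modsurj n k i hi
      exact ⟨j, hj, by simp only [hji]⟩
    · rintro ⟨j, hj, rfl⟩
      exact ⟨(j + k) % n, Nat.mod_lt _ hn, rfl⟩
  · intro v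
    rw [h.memf]
    constructor
    · rintro ⟨i, hi, rfl⟩
      obtain ⟨j, hj, hji⟩ := modsurj n k i hi
      exact ⟨j, hj, by simp only [hji]⟩
    · rintro ⟨j, hj, rfl⟩
      exact ⟨(j + k) % n, Nat.mod_lt _ hn, rfl⟩
  · intro i hi
    have h1 := h.ends ((i + k) % n) (Nat.mod_lt _ hn)
    have h2 : ((i + k) % n + 1) % n = ((i + 1) % n + k) % n := by
      rw [Nat.mod_add_mod, Nat.mod_add_mod]
      congr 1
      omega
    rw [h2] at h1
    exact h1

lemma card {V E : Type} (G : MG V E) (C : Finset E) (n : ℕ) (f : ℕ → V) (c : ℕ → E)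
    (h : IsCyc G C n f c) : n = (verts G C).ncard := by
  classical
  have h1 : verts G C = ((Finset.range n).image f : Finset V) := by
    ext v
    rw [h.memf]
    simp
  rw [h1, Set.ncard_coe_finset, Finset.card_image_of_injOn, Finset.card_range]
  intro i hi j hj hij
  exact h.injf i (by simpa using hi) j (by simpa using hj) hij

end I_CycEdge

open I_CycEdge in
theorem CycEdge_pf : S_CycEdge := by
  intro V E _ _ _ _ G C hC e he
  obtain ⟨x, hx⟩ : ∃ x, x ∈ G.ends e := by
    induction G.ends e with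
    | _ a b => exact ⟨a, Sym2.mem_mk_left a b⟩
  obtain ⟨n, f, c, hcyc, -⟩ := I_Cyc G C hC x ⟨e, he, hx⟩
  obtain ⟨i, hi, hie⟩ := (hcyc.memc e).1 he
  have hr := rot G C n f c hcyc (i + 1)
  refine ⟨n, _, _, hr, ?_, card G C n _ _ hr⟩
  have h2 : (n - 1 + (i + 1)) % n = i := by
    have : n - 1 + (i + 1) = n + i := by have := hcyc.two; omega
    rw [this, Nat.add_mod_left]
    exact Nat.mod_eq_of_lt hi
  simp only [h2]
  exact hie

end Pool.Agent.Work.MP_7794fd_co.M
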