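import Pool.Agent.Work.MP_7794fd_co.M.Fin

/-! Project MP_7794fd_co, block M, item ExtSemi: an extension is a semi-extension. -/

set_option autoImplicit false

namespace Pool.Agent.Work.MP_7794fd_co.M

open Finset Pool.Agent.Work.MP_7794fd_co.R

namespace I_ExtSemi

theorem verts_union {V E : Type} [DecidableEq E] (G : MG V E) {C D : Finset E}
    (h : verts G C ⊆ verts G D) : verts G (C ∪ D) ⊆ verts G D := by
  rintro v ⟨e, he, hv⟩
  rcases Finset.mem_union.1 he with he | he
  · exact h ⟨e, he, hv⟩
  · exact ⟨e, he, hv⟩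

end I_ExtSemi

open I_ExtSemi in
theorem ExtSemi_pf : S_ExtSemi := by
  intro V E _ _ _ _ G C D hC hD hne h
  exact ⟨hC, hD, hne.symm, fun e _ hx => Or.inl fun x hx' => verts_union G h (hx x hx'),
    fun u _ => Or.inl fun x hx => verts_union G h hx.1⟩

end Pool.Agent.Work.MP_7794fd_co.M
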