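import Pool.Agent.Work.MP_7794fd_co.M.Fin

/-! Project MP_7794fd_co, block M, item PatExt: from a pattern to an extension. -/

set_option autoImplicit false

namespace Pool.Agent.Work.MP_7794fd_co.M

open Finset Pool.Agent.Work.MP_7794fd_co.R

theorem PatExt_pf (h1 : S_PatPair) (h2 : S_Paths0) (h3 : S_Circ) : S_PatExt := by
  intro V E L _ _ _ _ _ G C n f c w F hG hC hcyc hw hF
  obtain ⟨h4, pr, h5⟩ := h1 w n F hF
  have hlt : ∀ i ∈ F ∪ F.image (· + 1), i < n := by
    intro i hi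
    rcases Finset.mem_union.1 hi with hi | hi
    · have := hF.lt i hi
      omega
    · obtain ⟨j, hj, rfl⟩ := Finset.mem_image.1 hi
      exact hF.lt j hj
  obtain ⟨Q, hQ⟩ := h2 G C n f c (F ∪ F.image (· + 1)) pr hG hC hcyc (by
    intro i hi
    obtain ⟨a1, a2, a3, a4, a5⟩ := h5 i hi
    refine ⟨hlt i hi, a1, a2, a3, (hw i (hlt i hi) (pr i) (hlt _ a1)).1 a4.symm, ?_⟩
    intro j hj hs
    exact a5 j hj ((hw i (hlt i hi) j (hlt j hj)).2 hs).symm)
  exact h3 G C n f c w F pr Q hG hC hcyc hF h4 h5 hQ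

end Pool.Agent.Work.MP_7794fd_co.M
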