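import Pool.Agent.Work.MP_7794fd_co.M.Fin

/-! Project MP_7794fd_co, block M, item `PatPair`: the pairing of a pattern. -/

set_option autoImplicit false

namespace Pool.Agent.Work.MP_7794fd_co.M

open Finset Pool.Agent.Work.MP_7794fd_co.R

/-- **Item `PatPair`.** -/
theorem PatPair_pf : S_PatPair := by
  intro L _ w N F hF
  have h1 : ∀ i ∈ F, i + 1 ∉ F := by
    intro i hi hi1
    have hlt := hF.lt _ hi1
    have hA : i + 1 ∈ F.filter (fun j => w j = w (i + 1)) := Finset.mem_filter.2 ⟨hi1, rfl⟩
    have hB : i ∈ F.filter (fun j => w (j + 1) = w (i + 1)) := Finset.mem_filter.2 ⟨hi, rfl⟩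
    have hA' := Finset.card_pos.2 ⟨_, hA⟩
    have hB' := Finset.card_pos.2 ⟨_, hB⟩
    have hd : (F.filter (fun j => w j = w (i + 1))).card +
        (F.filter (fun j => w (j + 1) = w (i + 1))).card = 0 ∨
        (F.filter (fun j => w j = w (i + 1))).card +
        (F.filter (fun j => w (j + 1) = w (i + 1))).card = 2 := hF.deg (w (i + 1))
    have hA1 : (F.filter (fun j => w j = w (i + 1))).card = 1 := by omega
    have hB1 : (F.filter (fun j => w (j + 1) = w (i + 1))).card = 1 := by omega
    have hA2 : ∀ j ∈ F, w j = w (i + 1) → j = i + 1 := by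
      intro j hj hw
      exact Finset.card_le_one.1 hA1.le _ (Finset.mem_filter.2 ⟨hj, hw⟩) _ hA
    have hB2 : ∀ j ∈ F, w (j + 1) = w (i + 1) → j = i := by
      intro j hj hw
      exact Finset.card_le_one.1 hB1.le _ (Finset.mem_filter.2 ⟨hj, hw⟩) _ hB
    have hc := hF.conn (fun j => decide (j = i + 1)) (fun x => decide (x = w (i + 1)))
      ⟨?_, ?_, ?_⟩ ?_ (i + 1) (by omega)
    · simp at hc
    · intro j _ _ hj
      have e1 : j ≠ i + 1 := by rintro rfl; exact hj hi1
      have e2 : j + 1 ≠ i + 1 := by
        intro h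
        have : j = i := by omega
        rw [this] at hj; exact hj hi
      show decide (j = i + 1) = decide (j + 1 = i + 1)
      rw [decide_eq_false e1, decide_eq_false e2]
    · intro j _ _ hj
      show decide (j = i + 1) = decide (w j = w (i + 1))
      apply decide_eq_decide.2
      exact ⟨fun h => by rw [h], fun h => hA2 j hj h⟩
    · intro j _ _ hj
      show decide (j + 1 = i + 1) = decide (w (j + 1) = w (i + 1))
      apply decide_eq_decide.2
      exact ⟨fun h => by rw [h], fun h => by rw [hB2 j hj h]⟩
    · show decide (0 = i + 1) = decide (N - 1 = i + 1)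
      rw [decide_eq_false (by omega), decide_eq_false (by omega)]
  refine ⟨h1, ?_⟩
  set P := F ∪ F.image (· + 1) with hP
  have hdis : Disjoint F (F.image (· + 1)) := by
    rw [Finset.disjoint_left]
    intro i hi hi'
    obtain ⟨j, hj, rfl⟩ := Finset.mem_image.1 hi'
    exact h1 j hj hi
  have hcard : ∀ x, (P.filter (fun j => w j = x)).card = gdeg w F x := by
    intro x
    rw [hP, Finset.filter_union, Finset.card_union_of_disjoint
      (Finset.disjoint_filter_filter hdis)]
    unfold gdeg
    congr 1
    rw [Finset.filter_image, Finset.card_image_of_injective _ (fun a b h => by simpa using h)]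
  have hex : ∀ i, ∃ j, i ∈ P → j ∈ P ∧ j ≠ i ∧ w j = w i ∧ ∀ k ∈ P, w k = w i → k = i ∨ k = j := by
    intro i
    by_cases hi : i ∈ P
    · have hm : i ∈ P.filter (fun j => w j = w i) := Finset.mem_filter.2 ⟨hi, rfl⟩
      have h2 : (P.filter (fun j => w j = w i)).card = 2 := by
        have := Finset.card_pos.2 ⟨_, hm⟩
        rw [hcard] at this ⊢
        rcases hF.deg (w i) with h | h <;> omega
      obtain ⟨a, b, hab, he⟩ := Finset.card_eq_two.1 h2
      have hma : a ∈ P.filter (fun j => w j = w i) := by rw [he]; simp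
      have hmb : b ∈ P.filter (fun j => w j = w i) := by rw [he]; simp
      rw [he] at hm
      have key : ∀ k ∈ P, w k = w i → k = a ∨ k = b := by
        intro k hk hw
        have : k ∈ P.filter (fun j => w j = w i) := Finset.mem_filter.2 ⟨hk, hw⟩
        rw [he] at this
        simpa using this
      have hm' : i = a ∨ i = b := by simpa using hm
      rcases hm' with h | h
      · refine ⟨b, fun _ => ⟨(Finset.mem_filter.1 hmb).1, ?_, (Finset.mem_filter.1 hmb).2, ?_⟩⟩
        · rw [h]; exact hab.symm
        · intro k hk hw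
          rcases key k hk hw with h' | h'
          · left; rw [h', h]
          · right; exact h'
      · refine ⟨a, fun _ => ⟨(Finset.mem_filter.1 hma).1, ?_, (Finset.mem_filter.1 hma).2, ?_⟩⟩
        · rw [h]; exact hab
        · intro k hk hw
          rcases key k hk hw with h' | h'
          · right; exact h'
          · left; rw [h', h]
    · exact ⟨i, fun h => (hi h).elim⟩
  choose pr hpr using hex
  refine ⟨pr, ?_⟩
  intro i hi
  obtain ⟨h2, h3, h4, h5⟩ := hpr i hi
  obtain ⟨g2, g3, g4, g5⟩ := hpr (pr i) h2
  refine ⟨h2, h3, ?_, h4, h5⟩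
  rcases h5 (pr (pr i)) g2 (g4.trans h4) with h | h
  · exact h
  · exact (g3 h).elim

end Pool.Agent.Work.MP_7794fd_co.M
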