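import Pool.Agent.Work.MP_7794fd_co.M.Fin

/-! Project MP_7794fd_co, block M, item `Paths0`: the union of the paths of a pairing exists. -/

set_option autoImplicit false

namespace Pool.Agent.Work.MP_7794fd_co.M

open Finset Pool.Agent.Work.MP_7794fd_co.R

namespace I_Paths0

set_option linter.unusedSectionVars false

variable {V E : Type} [Fintype V] [DecidableEq V] [Fintype E] [DecidableEq E] (G : MG V E)

lemma deg_ne_zero {X : Finset E} {v : V} : deg G X v ≠ 0 ↔ ∃ e ∈ X, v ∈ G.ends e := by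
  unfold deg
  rw [Finset.card_ne_zero]
  constructor
  · rintro ⟨e, he⟩
    exact ⟨e, (Finset.mem_filter.1 he).1, (Finset.mem_filter.1 he).2⟩
  · rintro ⟨e, he, hv⟩
    exact ⟨e, Finset.mem_filter.2 ⟨he, hv⟩⟩

lemma linked_mono {W : Set V} {X Y : Finset E} (h : X ⊆ Y) {a b : E} (hl : Linked G W X a b) :
    Linked G W Y a b := by
  induction hl with
  | refl => exact Relation.ReflTransGen.refl
  | tail _ hs ih => exact Relation.ReflTransGen.tail ih ⟨h hs.1, h hs.2.1, hs.2.2⟩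

/-- the abstract form: a family of paths which is pairwise disjoint at every vertex -/
lemma main (C : Finset E) (n : ℕ) (f : ℕ → V) (P : Finset ℕ) (pr : ℕ → ℕ) (H : ℕ → Finset E)
    (hlt : ∀ i ∈ P, i < n) (hpr : ∀ i ∈ P, pr i ∈ P) (hne : ∀ i ∈ P, pr i ≠ i)
    (hinv : ∀ i ∈ P, pr (pr i) = i)
    (H1 : ∀ i ∈ P, i < pr i → Disjoint C (H i))
    (H2 : ∀ i ∈ P, i < pr i → ∀ k < n, deg G (H i) (f k) = if k = i ∨ k = pr i then 1 else 0)
    (H3 : ∀ i ∈ P, i < pr i → ∀ z, z ∉ verts G C → deg G (H i) z = 0 ∨ deg G (H i) z = 2)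
    (H4 : ∀ i ∈ P, i < pr i → ∀ a ∈ H i, ∀ b ∈ H i, Linked G Set.univ (H i) a b)
    (H5 : ∀ i ∈ P, i < pr i → ∀ j ∈ P, j < pr j → i ≠ j → ∀ z,
      deg G (H i) z = 0 ∨ deg G (H j) z = 0) :
    IsQ0 G C n f P pr ((P.filter (fun i => i < pr i)).biUnion H) := by
  set T := P.filter (fun i => i < pr i) with hT
  have hmem : ∀ i, i ∈ T ↔ i ∈ P ∧ i < pr i := by
    intro i; rw [hT, Finset.mem_filter]
  have hsub : ∀ i ∈ T, H i ⊆ T.biUnion H := fun i hi => Finset.subset_biUnion_of_mem H hi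
  have hA : ∀ i ∈ T, ∀ z, deg G (H i) z ≠ 0 → ∀ e ∈ T.biUnion H, z ∈ G.ends e → e ∈ H i := by
    intro i hi z hz e he hze
    obtain ⟨j, hj, hej⟩ := Finset.mem_biUnion.1 he
    by_cases hij : i = j
    · rw [hij]; exact hej
    · exfalso
      have hi' := (hmem i).1 hi
      have hj' := (hmem j).1 hj
      rcases H5 i hi'.1 hi'.2 j hj'.1 hj'.2 hij z with h | h
      · exact hz h
      · exact (deg_ne_zero G).2 ⟨e, hej, hze⟩ h
  have hA' : ∀ i ∈ T, ∀ z, deg G (H i) z ≠ 0 → deg G (T.biUnion H) z = deg G (H i) z := by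
    intro i hi z hz
    have : (T.biUnion H).filter (fun e => z ∈ G.ends e) = (H i).filter (fun e => z ∈ G.ends e) := by
      ext e
      rw [Finset.mem_filter, Finset.mem_filter]
      exact ⟨fun h => ⟨hA i hi z hz e h.1 h.2, h.2⟩, fun h => ⟨hsub i hi h.1, h.2⟩⟩
    unfold deg
    rw [this]
  have hB : ∀ z, (∀ i ∈ T, deg G (H i) z = 0) → deg G (T.biUnion H) z = 0 := by
    intro z hz
    by_contra hne
    obtain ⟨e, he, hze⟩ := (deg_ne_zero G).1 hne
    obtain ⟨j, hj, hej⟩ := Finset.mem_biUnion.1 he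
    exact (deg_ne_zero G).2 ⟨e, hej, hze⟩ (hz j hj)
  -- the representative of a pair
  have hrep : ∀ k ∈ P, ∃ i ∈ T, (k = i ∨ k = pr i) ∧ (pr k = i ∨ pr k = pr i) := by
    intro k hk
    rcases lt_or_gt_of_ne (hne k hk) with h | h
    · refine ⟨pr k, (hmem _).2 ⟨hpr k hk, ?_⟩, Or.inr (hinv k hk).symm, Or.inl rfl⟩
      rw [hinv k hk]; exact h
    · exact ⟨k, (hmem _).2 ⟨hk, h⟩, Or.inl rfl, Or.inr rfl⟩
  refine ⟨?_, ?_, ?_, ?_, ?_⟩
  · rw [Finset.disjoint_biUnion_right]
    intro i hi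
    exact H1 i ((hmem i).1 hi).1 ((hmem i).1 hi).2
  · intro k hk
    by_cases hkP : k ∈ P
    · rw [if_pos hkP]
      obtain ⟨i, hi, h1, -⟩ := hrep k hkP
      have hi' := (hmem i).1 hi
      have h2 : deg G (H i) (f k) = 1 := by rw [H2 i hi'.1 hi'.2 k hk, if_pos h1]
      rw [hA' i hi (f k) (by rw [h2]; exact one_ne_zero), h2]
    · rw [if_neg hkP]
      apply hB
      intro i hi
      have hi' := (hmem i).1 hi
      rw [H2 i hi'.1 hi'.2 k hk, if_neg]
      rintro (h | h)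
      · rw [h] at hkP; exact hkP hi'.1
      · rw [h] at hkP; exact hkP (hpr i hi'.1)
  · intro z hz
    by_cases h : ∀ i ∈ T, deg G (H i) z = 0
    · exact Or.inl (hB z h)
    · push Not at h
      obtain ⟨i, hi, hne⟩ := h
      rw [hA' i hi z hne]
      exact H3 i ((hmem i).1 hi).1 ((hmem i).1 hi).2 z hz
  · intro k hk a ha b hb hfa hfb
    obtain ⟨i, hi, h1, h1'⟩ := hrep k hk
    have hi' := (hmem i).1 hi
    have h2 : deg G (H i) (f k) = 1 := by rw [H2 i hi'.1 hi'.2 k (hlt k hk), if_pos h1]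
    have h3 : deg G (H i) (f (pr k)) = 1 := by
      rw [H2 i hi'.1 hi'.2 (pr k) (hlt _ (hpr k hk)), if_pos h1']
    have ha' := hA i hi (f k) (by rw [h2]; exact one_ne_zero) a ha hfa
    have hb' := hA i hi (f (pr k)) (by rw [h3]; exact one_ne_zero) b hb hfb
    exact linked_mono G (hsub i hi) (H4 i hi'.1 hi'.2 a ha' b hb')
  · intro a ha
    obtain ⟨i, hi, hai⟩ := Finset.mem_biUnion.1 ha
    have hi' := (hmem i).1 hi
    have h2 : deg G (H i) (f i) = 1 := by
      rw [H2 i hi'.1 hi'.2 i (hlt i hi'.1), if_pos (Or.inl rfl)]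
    obtain ⟨b, hb, hfb⟩ := (deg_ne_zero G).1 (show deg G (H i) (f i) ≠ 0 by
      rw [h2]; exact one_ne_zero)
    exact ⟨i, hi'.1, b, hsub i hi hb, hfb,
      linked_mono G (hsub i hi) (H4 i hi'.1 hi'.2 a hai b hb)⟩

end I_Paths0

/-- **Item `Paths0`.** -/
theorem Paths0_pf (h1 : S_BPath) : S_Paths0 := by
  intro V E _ _ _ _ G C n f c P pr hcub hC hcyc hP
  have hlt : ∀ i ∈ P, i < n := fun i hi => (hP i hi).1
  have hpr : ∀ i ∈ P, pr i ∈ P := fun i hi => (hP i hi).2.1
  have hne : ∀ i ∈ P, pr i ≠ i := fun i hi => (hP i hi).2.2.1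
  have hinv : ∀ i ∈ P, pr (pr i) = i := fun i hi => (hP i hi).2.2.2.1
  have hsb : ∀ i ∈ P, SameBridge G C ∅ (f i) (f (pr i)) := fun i hi => (hP i hi).2.2.2.2.1
  have hone : ∀ i ∈ P, ∀ j ∈ P, SameBridge G C ∅ (f i) (f j) → j = i ∨ j = pr i :=
    fun i hi => (hP i hi).2.2.2.2.2
  have hfC : ∀ k < n, f k ∈ verts G C := fun k hk => (hcyc.memf _).2 ⟨k, hk, rfl⟩
  have hex : ∀ i, ∃ F : Finset E, i ∈ P → IsBPath G C F (f i) (f (pr i)) := by
    intro i
    by_cases hi : i ∈ P
    · have hnf : f i ≠ f (pr i) := by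
        intro he
        exact hne i hi (hcyc.injf i (hlt i hi) (pr i) (hlt _ (hpr i hi)) he).symm
      obtain ⟨F, hF⟩ := h1 G C hcub hC (f i) (hfC i (hlt i hi)) (f (pr i))
        (hfC _ (hlt _ (hpr i hi))) hnf (hsb i hi)
      exact ⟨F, fun _ => hF⟩
    · exact ⟨∅, fun h => (hi h).elim⟩
  choose H hH using hex
  have hFd : ∀ i ∈ P, ∀ k < n, deg G (H i) (f k) = if k = i ∨ k = pr i then 1 else 0 := by
    intro i hi k hk
    by_cases h1 : k = i
    · rw [if_pos (Or.inl h1), h1]; exact (hH i hi).dv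
    · by_cases h1' : k = pr i
      · rw [if_pos (Or.inr h1'), h1']; exact (hH i hi).dw
      · rw [if_neg (by tauto)]
        refine (hH i hi).dC _ (hfC k hk) ?_ ?_
        · intro he
          exact h1 (hcyc.injf k hk i (hlt i hi) he)
        · intro he
          exact h1' (hcyc.injf k hk (pr i) (hlt _ (hpr i hi)) he)
  refine ⟨_, I_Paths0.main G C n f P pr H hlt hpr hne hinv ?_ ?_ ?_ ?_ ?_⟩
  · intro i hi _
    exact (hH i hi).disj
  · intro i hi _ k hk
    exact hFd i hi k hk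
  · intro i hi _ z hz
    exact (hH i hi).dO z hz
  · intro i hi _
    exact (hH i hi).link
  · intro i hi hil j hj hjl hij z
    by_contra hcon
    push Not at hcon
    obtain ⟨hz1, hz2⟩ := hcon
    by_cases hzC : z ∈ verts G C
    · obtain ⟨k, hk, rfl⟩ := (hcyc.memf z).1 hzC
      rw [hFd i hi k hk] at hz1
      rw [hFd j hj k hk] at hz2
      have h1 : k = i ∨ k = pr i := by
        by_contra h; exact hz1 (if_neg h)
      have h2 : k = j ∨ k = pr j := by
        by_contra h; exact hz2 (if_neg h)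
      have hii := hinv i hi
      have hjj := hinv j hj
      rcases h1 with h1 | h1 <;> rcases h2 with h2 | h2
      · exact hij (h1.symm.trans h2)
      · have : pr i = j := by rw [← h1, h2]; exact hjj
        omega
      · have : pr j = i := by rw [← h2, h1]; exact hii
        omega
      · apply hij
        rw [← hii, ← hjj, ← h1, ← h2]
    · have h1 := ((hH i hi).att z hzC hz1).1
      have h2 := ((hH j hj).att z hzC hz2).1
      have hzC' : z ∉ verts G (C ∪ ∅) := by rwa [Finset.union_empty]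
      have hs : SameBridge G C ∅ (f i) (f j) := Or.inr (Or.inr ⟨z, hzC', h1, h2⟩)
      rcases hone i hi j hj hs with h | h
      · exact hij h.symm
      · have := hinv i hi
        rw [← h] at this
        omega

end Pool.Agent.Work.MP_7794fd_co.M
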