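import Pool.Agent.Work.MP_7794fd_co.M.Fin
import Pool.Agent.Work.MP_7794fd_co.T.Eq0

/-! MP_7794fd_co, block M, item Letters: the bridge attached at a vertex of `C`. -/

set_option autoImplicit false
set_option linter.unusedSectionVars false

namespace Pool.Agent.Work.MP_7794fd_co.M

open Finset Pool.Agent.Work.MP_7794fd_co.R

namespace I_Letters

variable {V E : Type} [Fintype V] [DecidableEq V] [Fintype E] [DecidableEq E] (G : MG V E)

/-- the class of a vertex of `C` -/
def cls (C : Finset E) (v : V) : Set V := {w | w ∈ verts G C ∧ SameBridge G C ∅ v w}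

/-- every vertex of `C` has an edge outside `C` -/
lemma out {C : Finset E} (hG : Cubic G) (hC : IsCircuit G C) {v : V} :
    ∃ e, e ∉ C ∧ v ∈ G.ends e := by
  by_contra hcon
  push Not at hcon
  have h3 := hG v
  have h2 : deg G Finset.univ v ≤ deg G C v := by
    unfold deg
    refine Finset.card_le_card fun e he => ?_
    have he' := (Finset.mem_filter.1 he).2
    refine Finset.mem_filter.2 ⟨?_, he'⟩
    by_contra hn
    exact hcon e hn he'
  rcases hC.deg v with h | h <;> omega

lemma cls_mem {C : Finset E} (hG : Cubic G) (hC : IsCircuit G C) {v : V} (hv : v ∈ verts G C) :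
    cls G C v ∈ bridgeSets G C := by
  refine ⟨⟨v, hv, Or.inl rfl⟩, ?_⟩
  obtain ⟨e, heC, hve⟩ := out G hG hC (v := v)
  obtain ⟨x, hx⟩ := Sym2.mem_iff_exists.1 hve
  by_cases hxC : x ∈ verts G C
  · left
    refine ⟨e, heC, ?_, ?_⟩
    · intro y hy
      rw [hx, Sym2.mem_iff] at hy
      rcases hy with rfl | rfl
      · exact hv
      · exact hxC
    · ext w
      simp only [cls, Set.mem_setOf_eq]
      constructor
      · rintro ⟨hw, h | ⟨e', h1, _, h3⟩ | ⟨u, h1, h2, h3⟩⟩
        · rw [← h]; exact hve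
        · have hee : e = e' := Equiv.third G hG hC hv heC h1 hve (by rw [h3]; simp)
          rw [hee, h3]; simp
        · exact (Equiv.chord_att G hG hC h1 hxC heC (by rw [hx, Sym2.eq_swap]) h2).elim
      · intro hw
        rw [hx, Sym2.mem_iff] at hw
        rcases hw with rfl | rfl
        · exact ⟨hv, Or.inl rfl⟩
        · exact ⟨hxC, Or.inr (Or.inl ⟨e, heC, Finset.notMem_empty _, hx⟩)⟩
  · right
    refine ⟨x, hxC, ?_⟩
    have hxC' : x ∉ verts G (C ∪ ∅) := by rwa [Finset.union_empty]
    have hva : v ∈ att G C ∅ x :=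
      ⟨hv, x, Relation.ReflTransGen.refl, e, by rw [hx, Sym2.eq_swap]⟩
    ext w
    simp only [cls, Set.mem_setOf_eq]
    constructor
    · rintro ⟨hw, h⟩
      exact (T.I_Eq0 G C hG hC).2.2.2 x hxC v hva w hw h
    · intro hw
      exact ⟨hw.1, Or.inr (Or.inr ⟨x, hxC', hva, hw⟩)⟩

end I_Letters

open I_Letters in
/-- the bridge attached at a vertex of `C` -/
theorem Letters_pf : S_Letters := by
  intro V E _ _ _ _ G C hG hC
  obtain ⟨hs, ht, -, -⟩ := T.I_Eq0 G C hG hC
  refine ⟨cls G C, fun v hv => cls_mem G hG hC hv, fun v hv w hw => ⟨fun h => ?_, fun h => ?_⟩⟩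
  · have h1 : w ∈ cls G C v := by
      rw [h]
      exact ⟨hw, Or.inl rfl⟩
    exact h1.2
  · ext z
    simp only [cls, Set.mem_setOf_eq]
    constructor
    · rintro ⟨hz, h1⟩
      exact ⟨hz, ht w v z hw hv hz (hs v w h) h1⟩
    · rintro ⟨hz, h1⟩
      exact ⟨hz, ht v w z hv hw hz h h1⟩

end Pool.Agent.Work.MP_7794fd_co.M
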