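import Pool.Agent.Work.MP_7794fd_co.M.Fin

/-! Project MP_7794fd_co, block M: a gap with two equal letters is a pattern. -/

set_option autoImplicit false

namespace Pool.Agent.Work.MP_7794fd_co.M

open Finset

theorem Single_pf : S_Single := by
  intro L _ w N i hi hw
  refine ⟨⟨i, mem_singleton_self i⟩, ?_, ?_, ?_⟩
  · intro j hj
    rw [mem_singleton] at hj
    subst hj
    exact hi
  · intro x
    unfold gdeg
    rw [filter_singleton, filter_singleton, ← hw]
    by_cases h : w i = x
    · right
      rw [if_pos h]
      simp
    · left
      rw [if_neg h]
      simp
  · intro lam mu hC _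
    have hstep : ∀ j, j < N - 1 → lam j = lam (j + 1) := by
      intro j hj
      by_cases hji : j = i
      · subst hji
        rw [hC.fst j (Nat.zero_le j) hj (mem_singleton_self j),
          hC.snd j (Nat.zero_le j) hj (mem_singleton_self j), hw]
      · exact hC.seg j (Nat.zero_le j) hj (fun h => hji (mem_singleton.1 h))
    intro j
    induction j with
    | zero => intro _; rfl
    | succ j ih =>
      intro hj
      rw [← hstep j (by omega)]
      exact ih (by omega)

end Pool.Agent.Work.MP_7794fd_co.M
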