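import Pool.Agent.Work.MP_7794fd_co.M.Stmts2

/-! Block M, item Count2: the multiplicative gossip count. -/

set_option autoImplicit false

namespace Pool.Agent.Work.MP_7794fd_co.M

open Finset

namespace Count2

variable {L : Type} [DecidableEq L]

theorem mem_self (w : ℕ → L) (i : ℕ) (x : L) : x ∈ OS w i x := by
  induction i with
  | zero => simp [OS]
  | succ i ih =>
    rw [OS]
    split
    · exact mem_union_left _ ih
    · exact ih

theorem pos (w : ℕ → L) (i : ℕ) (x : L) : 0 < (OS w i x).card :=
  card_pos.2 ⟨x, mem_self w i x⟩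

theorem main [Fintype L] (w : ℕ → L) (n : ℕ) :
    4 ^ ((range n).filter fun i => Disjoint (OS w i (w i)) (OS w i (w (i + 1)))).card *
      (OS w n (w n)).card ≤ (∏ x, (OS w n x).card) ^ 2 := by
  induction n with
  | zero => simp [OS]
  | succ n ih =>
    set D := ((range n).filter fun i => Disjoint (OS w i (w i)) (OS w i (w (i + 1)))).card with hD
    set p := (OS w n (w n)).card with hp
    set q := (OS w n (w (n + 1))).card with hq
    set p' := (OS w (n + 1) (w n)).card with hp'
    set P := ∏ x, (OS w n x).card with hP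
    set P' := ∏ x, (OS w (n + 1) x).card with hP'
    have hp0 : 0 < p := pos w n (w n)
    have e1 : (OS w (n + 1) (w (n + 1))).card = q := by
      rw [OS]
      split
      · next h => rw [h, union_self, hq, h]
      · rfl
    have e2 : P' * p = P * p' := by
      have a1 : P' = p' * ∏ x ∈ univ.erase (w n), (OS w n x).card := by
        rw [hP', ← mul_prod_erase univ _ (mem_univ (w n))]
        congr 1
        refine prod_congr rfl fun x hx => ?_
        rw [OS, if_neg (ne_of_mem_erase hx)]
      have a2 : P = p * ∏ x ∈ univ.erase (w n), (OS w n x).card := by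
        rw [hP, ← mul_prod_erase univ _ (mem_univ (w n))]
      rw [a1, a2]
      ring
    have hu : OS w (n + 1) (w n) = OS w n (w n) ∪ OS w n (w (n + 1)) := by
      rw [OS, if_pos rfl]
    have g1 : p ≤ p' := by rw [hp', hu]; exact card_le_card subset_union_left
    have g2 : q ≤ p' := by rw [hp', hu]; exact card_le_card subset_union_right
    rw [e1, range_add_one, filter_insert]
    -- it suffices to multiply by `p ^ 2`
    have key : ∀ D' : ℕ, 4 ^ D' * (p * q) ≤ 4 ^ D * p' ^ 2 → 4 ^ D' * q ≤ P' ^ 2 := by
      intro D' h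
      have h2 : 4 ^ D' * q * p ^ 2 ≤ P' ^ 2 * p ^ 2 := by
        calc 4 ^ D' * q * p ^ 2 = 4 ^ D' * (p * q) * p := by ring
          _ ≤ 4 ^ D * p' ^ 2 * p := Nat.mul_le_mul_right _ h
          _ = 4 ^ D * p * p' ^ 2 := by ring
          _ ≤ P ^ 2 * p' ^ 2 := Nat.mul_le_mul_right _ ih
          _ = (P * p') ^ 2 := by ring
          _ = (P' * p) ^ 2 := by rw [e2]
          _ = P' ^ 2 * p ^ 2 := by ring
      exact Nat.le_of_mul_le_mul_right h2 (by positivity)
    split
    · next hdis =>
      rw [card_insert_of_notMem (by simp), ← hD]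
      apply key
      have h3 : p' = p + q := by rw [hp', hu, card_union_of_disjoint hdis]
      have h4 : 4 * (p * q) ≤ p' ^ 2 := by
        rw [h3, ← mul_assoc]
        exact four_mul_le_sq_add p q
      calc 4 ^ (D + 1) * (p * q) = 4 ^ D * (4 * (p * q)) := by ring
        _ ≤ 4 ^ D * p' ^ 2 := Nat.mul_le_mul_left _ h4
    · rw [← hD]
      apply key
      apply Nat.mul_le_mul_left
      calc p * q ≤ p' * p' := Nat.mul_le_mul g1 g2
        _ = p' ^ 2 := by ring

end Count2

theorem Count2_pf : S_Count2 := by
  intro L _ _ w n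
  set D := ((range n).filter fun i => Disjoint (OS w i (w i)) (OS w i (w (i + 1)))).card with hD
  have h1 := Count2.main w n
  rw [← hD] at h1
  have h2 : ∏ x, (OS w n x).card ≤ Fintype.card L ^ Fintype.card L := by
    calc ∏ x, (OS w n x).card ≤ ∏ _x : L, Fintype.card L :=
          prod_le_prod' fun x _ => card_le_univ _
      _ = Fintype.card L ^ Fintype.card L := by simp
  have h3 : (2 ^ D) ^ 2 ≤ (Fintype.card L ^ Fintype.card L) ^ 2 := by
    calc (2 ^ D) ^ 2 = 4 ^ D := by rw [← pow_mul, mul_comm, pow_mul]; norm_num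
      _ ≤ 4 ^ D * (OS w n (w n)).card := Nat.le_mul_of_pos_right _ (Count2.pos w n (w n))
      _ ≤ (∏ x, (OS w n x).card) ^ 2 := h1
      _ ≤ (Fintype.card L ^ Fintype.card L) ^ 2 := Nat.pow_le_pow_left h2 2
  exact (Nat.pow_le_pow_iff_left (by norm_num)).1 h3

end Pool.Agent.Work.MP_7794fd_co.M
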