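import Pool.Agent.Work.MP_7794fd_co.M.Fin

/-! Project MP_7794fd_co, block M, item DegLeft: the degrees after a new gap at the left end. -/

set_option autoImplicit false

namespace Pool.Agent.Work.MP_7794fd_co.M

open Finset Pool.Agent.Work.MP_7794fd_co.R

namespace I_DegLeft

theorem card_filter_insert {L : Type} [DecidableEq L] (g : ℕ → L) (Z : Finset ℕ) (x : L) (i : ℕ)
    (hi : i ∉ Z) : ((insert i Z).filter fun j => g j = x).card =
      (Z.filter fun j => g j = x).card + (if x = g i then 1 else 0) := by
  rw [Finset.filter_insert]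
  by_cases h : g i = x
  · rw [if_pos h, if_pos h.symm, Finset.card_insert_of_notMem]
    intro h'
    exact hi (Finset.mem_filter.1 h').1
  · rw [if_neg h, if_neg (fun h' => h h'.symm), Nat.add_zero]

/-- the degrees after the insertion of a gap -/
theorem gdeg_insert {L : Type} [DecidableEq L] (w : ℕ → L) (Z : Finset ℕ) (x : L) (i : ℕ)
    (hi : i ∉ Z) : gdeg w (insert i Z) x =
      gdeg w Z x + (if x = w i then 1 else 0) + (if x = w (i + 1) then 1 else 0) := by
  unfold gdeg
  rw [card_filter_insert w Z x i hi, card_filter_insert (fun j => w (j + 1)) Z x i hi]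
  omega

end I_DegLeft

open I_DegLeft in
theorem DegLeft_pf : S_DegLeft := by
  intro L _ w Z Y a b ⟨ha, hb, hd⟩
  refine ⟨⟨hb, ha, fun x => ?_⟩, fun i hi hwa hwn => ⟨Finset.mem_insert_self _ _,
    Finset.mem_insert_of_mem hb, fun x => ?_⟩⟩
  · rw [← hd x]
    omega
  · rw [gdeg_insert w Z x i hi, hwa]
    have h := hd x
    by_cases hx : x = w (i + 1)
    · have hxY : x ∉ Y := hx ▸ hwn
      have hxI : x ∈ insert (w (i + 1)) Y := by rw [hx]; exact Finset.mem_insert_self _ _
      rw [if_neg hxY] at h
      rw [if_pos hx, if_pos hxI]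
      omega
    · have hiff : x ∈ insert (w (i + 1)) Y ↔ x ∈ Y := by
        rw [Finset.mem_insert]
        exact ⟨fun h => h.resolve_left hx, Or.inr⟩
      rw [if_neg hx]
      by_cases hxY : x ∈ Y
      · rw [if_pos (hiff.2 hxY)]
        rw [if_pos hxY] at h
        omega
      · rw [if_neg (fun h' => hxY (hiff.1 h'))]
        rw [if_neg hxY] at h
        omega

end Pool.Agent.Work.MP_7794fd_co.M
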