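import Pool.Agent.Work.MP_7794fd_co.M.Fin

/-! Item FutInv of block M of MP_7794fd_co: the invariant holds for every future path. -/

set_option autoImplicit false

namespace Pool.Agent.Work.MP_7794fd_co.M

theorem FutInv_pf (h1 : S_InvBase) (h2 : S_InvFl) (h3 : S_InvLeft) : S_FutInv := by
  intro L _ w N s u v A X hF
  induction hF with
  | base s z hs => exact ⟨0, fun _ => false, h1 w N s z hs⟩
  | left s i s' u v A X _ hi hs' hw hX ih =>
    obtain ⟨g, K, hI⟩ := ih
    exact ⟨_, _, h3 w N s s' i u v A X g K hI hi hs' hw hX⟩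
  | right s i s' u v A X _ hi hs' hw hX ih =>
    obtain ⟨g, K, hI⟩ := ih
    have hJ := h2 w N s u v A X g K hI
    have hK := h3 w N s s' i v u A X (fl g) K hJ hi hs' hw hX
    exact ⟨_, _, h2 w N s' (w (i + 1)) u _ _ _ _ hK⟩

end Pool.Agent.Work.MP_7794fd_co.M
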