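import Pool.Agent.Work.MP_7794fd_co.M.Fin

/-! Item InvBase of block M of MP_7794fd_co: the invariant holds for the trivial path. -/

set_option autoImplicit false

namespace Pool.Agent.Work.MP_7794fd_co.M

namespace I_InvBase

theorem degB {L : Type} [DecidableEq L] (w : ℕ → L) (z : L) : DegF w ∅ {z} z z := by
  refine ⟨by simp, by simp, fun x => ?_⟩
  by_cases h : x = z
  · simp [gdeg, h]
  · simp [gdeg, h]

theorem const {L : Type} [DecidableEq L] {w : ℕ → L} {s t : ℕ} {lam : ℕ → Bool} {mu : L → Bool}
    (h : Comp w s t ∅ lam mu) : ∀ i, s ≤ i → i ≤ t → lam i = lam s := by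
  intro i hs
  induction i, hs using Nat.le_induction with
  | base => intro _; rfl
  | succ n hn ih =>
    intro ht
    rw [← ih (by omega)]
    exact (h.seg n hn (by omega) (by simp)).symm

theorem sem {L : Type} [DecidableEq L] (w : ℕ → L) (N s : ℕ) (z : L) (hs : s < N) :
    Sem w s (N - 1) (N - 1) s ∅ z z 0 := by
  intro lam mu h
  have hc := const h
  refine ⟨⟨fun _ => ⟨hc (N - 1) (by omega) le_rfl, rfl⟩, fun h0 => ?_, fun h0 => ?_⟩, ?_⟩
  · exact absurd h0 (by decide)
  · exact absurd h0 (by decide)
  · intro c _ h2 _ _ i hi hi'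
    rw [hc i hi hi', h2]

end I_InvBase

open I_InvBase in
theorem InvBase_pf : S_InvBase := by
  intro L _ w N s z hs
  refine ⟨hs, fun j hj => ?_, degB w z, sem w N s z hs, by simp, by simp, ?_, ?_⟩
  · simp at hj
  · intro c hc
    have hcz : c = z := by simpa using hc
    subst hcz
    exact ⟨∅, ∅, {c}, {c}, 0, 0, by simp, by simp, by simp, by simp, degB w c, degB w c,
      sem w N s c hs, sem w N s c hs, by simp, by simp⟩
  · intro a _ b _ hab
    exact absurd rfl hab

end Pool.Agent.Work.MP_7794fd_co.M
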