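import Pool.Agent.Work.MP_7794fd_co.M.Fin

/-! Project MP_7794fd_co, block M, item InvFl: the invariant is symmetric. -/

set_option autoImplicit false

namespace Pool.Agent.Work.MP_7794fd_co.M

open Finset Pool.Agent.Work.MP_7794fd_co.R

namespace I_InvFl

theorem fl_one (g : Fin 3) : fl g = 1 ↔ g = 2 := (sw_one g).2.1

theorem fl_two (g : Fin 3) : fl g = 2 ↔ g = 1 := (sw_one g).2.2.1

end I_InvFl

open I_InvFl in
theorem InvFl_pf (h1 : S_SemFl) (h2 : S_DegLeft) : S_InvFl := by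
  intro L _ w N s u v A X g K H
  refine ⟨H.lt, H.gaps, (h2 w A X u v H.degs).1, h1 w s (N - 1) (N - 1) s A u v g H.sem, ?_, ?_,
    ?_, ?_⟩
  · rw [H.kv]
    exact decide_eq_decide.2 (fl_two g).symm
  · rw [H.ku]
    exact decide_eq_decide.2 (fl_one g).symm
  · intro c hc
    obtain ⟨Z1, Z2, Y1, Y2, l, r, hU, hD, hY1, hY2, hd1, hd2, hs1, hs2, hn, hk⟩ := H.split c hc
    refine ⟨Z2, Z1, Y2, Y1, fl r, fl l, by rw [union_comm]; exact hU, hD.symm, hY2, hY1,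
      (h2 w Z2 Y2 c v hd2).1, (h2 w Z1 Y1 u c hd1).1, h1 w _ _ _ _ Z2 c v r hs2,
      h1 w _ _ _ _ Z1 u c l hs1, ?_, ?_⟩
    · rw [fl_one, fl_two]
      exact fun h => hn h.symm
    · rw [hk, fl_one, fl_two]
      exact or_comm
  · intro a ha b hb hab
    obtain ⟨Z, Y, g1, g2, hZ, hY, hd, hg, hs, hp⟩ := H.pair a ha b hb hab
    refine ⟨Z, Y, g1, g2, hZ, hY, hd, hg, hs, ?_⟩
    intro lam mu hc hj
    rw [(join_fl g (lam s) (mu v) (mu u)).1] at hj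
    rw [(join_fl g (lam s) (mu v) (mu u)).2]
    obtain ⟨h3, h4⟩ := hp lam mu hc hj
    refine ⟨h3, fun c e1 e2 e3 e4 => ?_⟩
    obtain ⟨⟨e5, e6, e7⟩, e8⟩ := h4 c e1 e2 e3 e4
    exact ⟨⟨e5, e7, e6⟩, e8⟩

end Pool.Agent.Work.MP_7794fd_co.M
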