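import Pool.Agent.Work.MP_7794fd_co.M.Fin

/-! Project MP_7794fd_co, block M, item InvLeft: the invariant after a left step. -/

set_option autoImplicit false

namespace Pool.Agent.Work.MP_7794fd_co.M

open Finset Pool.Agent.Work.MP_7794fd_co.R

namespace I_InvLeft

variable {L : Type} [DecidableEq L]

theorem deg_empty (w : ℕ → L) (c : L) : DegF w ∅ {c} c c := by
  refine ⟨mem_singleton_self c, mem_singleton_self c, fun x => ?_⟩
  have h : gdeg w ∅ x = 0 := by
    unfold gdeg
    simp
  rw [h]
  by_cases hx : x = c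
  · rw [if_pos hx, if_pos (mem_singleton.2 hx)]
  · rw [if_neg hx, if_neg (fun h' => hx (mem_singleton.1 h'))]

omit [DecidableEq L] in
theorem const_empty {w : ℕ → L} {s t : ℕ} {lam : ℕ → Bool} {mu : L → Bool}
    (h : Comp w s t ∅ lam mu) : ∀ i, s ≤ i → i ≤ t → lam i = lam s := by
  intro i hi
  induction i, hi using Nat.le_induction with
  | base => exact fun _ => rfl
  | succ i hi ih =>
    intro hit
    rw [← ih (by omega)]
    exact (h.seg i hi (by omega) (notMem_empty i)).symm

theorem sem_empty (w : ℕ → L) (N s : ℕ) (c : L) (hs : s < N) :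
    Sem w s (N - 1) (N - 1) s ∅ c c 0 := by
  intro lam mu h
  have h1 := const_empty h
  refine ⟨⟨fun _ => ⟨h1 _ (by omega) le_rfl, rfl⟩, fun h2 => absurd h2 (by decide),
    fun h2 => absurd h2 (by decide)⟩, ?_⟩
  intro c _ h3 _ _ i hi hit
  rw [h1 i hi hit, h3]

end I_InvLeft

open I_InvLeft in
theorem InvLeft_pf (h1 : S_SemLeft) (h2 : S_DegLeft) (h3 : S_SplitOld) (h4 : S_PairOld)
    (h5 : S_PairNew) (h6 : S_PairFl) : S_InvLeft := by
  intro L _ w N s s' i u v A X g K H hi hs' hw hX
  have hs'N : s' < N := by
    have := H.lt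
    omega
  have hiA : i ∉ A := by
    intro h
    have := (H.gaps i h).1
    omega
  have hne : ∀ c ∈ X, c ≠ w (i + 1) := by
    rintro c hc rfl
    exact hX hc
  have hK : ∀ c ∈ X, Function.update K (w (i + 1)) (decide (swL g = 2)) c = K c := fun c hc =>
    Function.update_of_ne (hne c hc) _ _
  have hKn : Function.update K (w (i + 1)) (decide (swL g = 2)) (w (i + 1)) =
      decide (swL g = 2) := Function.update_self _ _ _
  have hdeg := (h2 w A X u v H.degs).2 i hiA hw hX
  have hsem := h1 w N s s' i A u v g H.lt hi hs' H.gaps hw H.sem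
  have hsplit : ∀ c ∈ insert (w (i + 1)) X, SplitF w N s' (w (i + 1)) v (insert i A)
      (insert (w (i + 1)) X) (Function.update K (w (i + 1)) (decide (swL g = 2)) c) c := by
    intro c hc
    rcases mem_insert.1 hc with rfl | hc
    · refine ⟨∅, insert i A, {w (i + 1)}, insert (w (i + 1)) X, 0, swL g, by simp,
        disjoint_empty_left _, singleton_subset_iff.2 (mem_insert_self _ _), Subset.refl _,
        deg_empty w _, hdeg, sem_empty w N s' _ hs'N, hsem, fun h => absurd h.1 (by decide), ?_⟩
      rw [hKn, decide_eq_true_iff]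
      constructor
      · exact fun h => Or.inr h
      · rintro (h | h)
        · exact absurd h (by decide)
        · exact h
    · rw [hK c hc]
      exact h3 w N s s' i u v A X (K c) c H.lt H.gaps hi hs' hw hX (H.split c hc)
  refine ⟨hs'N, ?_, hdeg, hsem, hKn, ?_, hsplit, ?_⟩
  · intro j hj
    have := H.lt
    rcases mem_insert.1 hj with rfl | hj
    · omega
    · have := H.gaps j hj
      omega
  · rw [hK v H.degs.2.1, H.kv]
    exact decide_eq_decide.2 (sw_one g).1.symm
  · intro a ha b hb hab
    rcases mem_insert.1 ha with rfl | ha'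
    · rcases mem_insert.1 hb with rfl | hb'
      · exact absurd rfl hab
      · refine h6 w N s' _ v _ _ (swL g) b _ (h5 w N s' _ v _ _ (swL g) _ b hs'N (hsplit b hb) ?_)
        exact fun h => hab (hKn.trans h.symm)
    · rcases mem_insert.1 hb with rfl | hb'
      · refine h5 w N s' _ v _ _ (swL g) _ a hs'N (hsplit a ha) ?_
        exact fun h => hab (h.trans hKn.symm)
      · rw [hK a ha', hK b hb'] at hab
        exact h4 w N s s' i u v A X g a b H.lt H.gaps hi hs' hw hX (H.pair a ha' b hb' hab)

end Pool.Agent.Work.MP_7794fd_co.M
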