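import Pool.Agent.Work.MP_7794fd_co.M.Fin

/-! Project MP_7794fd_co, block M, item LemC: the letters of a gap joined by a past path and by a
future path give a pattern. -/

set_option autoImplicit false

namespace Pool.Agent.Work.MP_7794fd_co.M

open Finset Pool.Agent.Work.MP_7794fd_co.R

theorem LemC_pf (h1 : S_PastDeg) (h2 : S_PastSem) (h3 : S_PastShort) (h4 : S_FutInv)
    (h5 : S_Close) (h6 : S_Theta) : S_LemC := by
  intro L _ w N t A B X Y ht hne hB hA
  obtain ⟨g, K, I⟩ := h4 w N (t + 1) _ _ A X hA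
  by_cases hg : g = 2
  · subst hg
    have hu : K (w t) = true := by rw [I.ku]; rfl
    have hv : K (w (t + 1)) = false := by rw [I.kv]; rfl
    obtain ⟨a, b, A', X', hP, ha, hb, hab, hX⟩ := h3 w t K X (w t) (w (t + 1)) B Y hB
      I.degs.1 I.degs.2.1 (by rw [hu, hv]; exact Bool.noConfusion)
    obtain ⟨m, hm⟩ := h2 w t a b A' X' hP
    obtain ⟨hlt, hd⟩ := h1 w t a b A' X' hP
    exact h6 w N t A A' X X' a b m ht hne I.gaps I.degs (I.pair a ha b hb hab) hlt hd hm
      (fun e => hab (by rw [e])) hX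
  · exact ⟨_, h5 w N t A X g ht hne I.gaps I.degs I.sem hg⟩

end Pool.Agent.Work.MP_7794fd_co.M
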