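import Pool.Agent.Work.MP_7794fd_co.M.Fin

/-! Item `OPast` of block M: two letters with a common reachable letter are joined by a past
path. -/

set_option autoImplicit false

namespace Pool.Agent.Work.MP_7794fd_co.M

open Finset

namespace I_OPast

/-- the step at the letter of the new gap -/
theorem step (h1 : S_PastSym) (h2 : S_PastSplit) {L : Type} [DecidableEq L] (w : ℕ → L) (t : ℕ)
    (ih : ∀ u v : L, ¬ Disjoint (OS w t u) (OS w t v) →
      ∃ (A : Finset ℕ) (X : Finset L), Past w t u v A X) (v : L)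
    (h : ¬ Disjoint (OS w t (w t) ∪ OS w t (w (t + 1))) (OS w t v)) :
    ∃ (A : Finset ℕ) (X : Finset L), Past w (t + 1) (w t) v A X := by
  rw [Finset.disjoint_union_left, not_and_or] at h
  rcases h with h | h
  · obtain ⟨A, X, hA⟩ := ih _ _ h
    exact ⟨A, X, (h1 w t _ _ A X hA).2 (t + 1) (Nat.le_succ t)⟩
  · obtain ⟨A, X, hA⟩ := ih _ _ h
    by_cases hx : w t ∈ X
    · obtain ⟨A1, A2, X1, X2, _, hB, _⟩ := h2 w t _ _ A X hA (w t) hx
      exact ⟨A2, X2, (h1 w t _ _ A2 X2 hB).2 (t + 1) (Nat.le_succ t)⟩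
    · exact ⟨_, _, Past.left t t (t + 1) (w (t + 1)) v A X hA le_rfl (Nat.lt_succ_self t) rfl hx⟩

end I_OPast

theorem OPast_pf (h1 : S_PastSym) (h2 : S_PastSplit) : S_OPast := by
  intro L _ w t
  induction t with
  | zero =>
    intro u v h
    have huv : u = v := by
      by_contra hne
      apply h
      simp only [OS]
      rw [Finset.disjoint_singleton_left, Finset.mem_singleton]
      exact hne
    subst huv
    exact ⟨_, _, Past.base 0 u⟩
  | succ t ih =>
    intro u v h
    by_cases huv : u = v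
    · subst huv
      exact ⟨_, _, Past.base (t + 1) u⟩
    by_cases hu : u = w t
    · have hv : v ≠ w t := fun hv => huv (hu.trans hv.symm)
      simp only [OS, if_pos hu, if_neg hv] at h
      rw [hu] at h
      rw [hu]
      exact I_OPast.step h1 h2 w t ih v h
    · by_cases hv : v = w t
      · simp only [OS, if_neg hu, if_pos hv] at h
        rw [hv] at h
        rw [hv]
        obtain ⟨A, X, hA⟩ := I_OPast.step h1 h2 w t ih u (fun hd => h hd.symm)
        exact ⟨A, X, (h1 w (t + 1) _ _ A X hA).1⟩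
      · simp only [OS, if_neg hu, if_neg hv] at h
        obtain ⟨A, X, hA⟩ := ih u v h
        exact ⟨A, X, (h1 w t _ _ A X hA).2 (t + 1) (Nat.le_succ t)⟩

end Pool.Agent.Work.MP_7794fd_co.M
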