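import Pool.Agent.Work.MP_7794fd_co.M.Fin

/-! Project MP_7794fd_co, block M, item PairFl: `PairF` is symmetric in the two letters. -/

set_option autoImplicit false

namespace Pool.Agent.Work.MP_7794fd_co.M

open Finset Pool.Agent.Work.MP_7794fd_co.R

namespace I_PairFl

theorem rel_fl (g : Fin 3) (T H x y : Bool) (h : Rel g T H x y) : Rel (fl g) T H y x := by
  revert h
  unfold Rel fl
  revert g T H x y
  decide

theorem fl_inj (g g' : Fin 3) (h : fl g = fl g') : g = g' := by
  revert h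
  unfold fl
  revert g g'
  decide

end I_PairFl

/-- `PairF` is symmetric in the two letters. -/
theorem PairFl_pf (h1 : S_SemFl) (h2 : S_DegLeft) : S_PairFl := by
  intro L _ w N s u v A X g a b h
  obtain ⟨Z, Y, g1, g2, hZ, hY, hdeg, hne, hsem, hrest⟩ := h
  refine ⟨Z, Y, fl g1, fl g2, hZ, hY, (h2 w Z Y a b hdeg).1,
    fun h => hne (I_PairFl.fl_inj _ _ h), h1 w s (N - 1) (N - 1) s Z a b g1 hsem,
    fun lam mu hc hj => ?_⟩
  obtain ⟨h3, h4⟩ := hrest lam mu hc hj
  exact ⟨I_PairFl.rel_fl _ _ _ _ _ h3, fun c hT hn hb ha => h4 c hT hn ha hb⟩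

end Pool.Agent.Work.MP_7794fd_co.M
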