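import Pool.Agent.Work.MP_7794fd_co.M.Fin

/-! Item `PairNew` of block M: the key point, the pair `c`, `u` with an end `u` of the whole
path. -/

set_option autoImplicit false

namespace Pool.Agent.Work.MP_7794fd_co.M

open Finset

theorem PairNew_pf (h1 : S_SemFl) (h2 : S_DegLeft) : S_PairNew := by
  intro L _ w N s u v A X g k c _ hsp hkg
  obtain ⟨Z1, Z2, Y1, Y2, l, r, hU, hD, hY1, _, hd1, _, hS1, hS2, hlr, hk⟩ := hsp
  obtain ⟨g2, hne, hq⟩ := key_check l r g k hlr hk hkg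
  have hAZ : A \ Z1 = Z2 := by
    rw [← hU, Finset.union_sdiff_cancel_left hD]
  have hZA : Z1 ⊆ A := by
    rw [← hU]
    exact Finset.subset_union_left
  refine ⟨Z1, Y1, fl l, g2, hZA, hY1, (h2 w Z1 Y1 u c hd1).1, hne,
    h1 w s (N - 1) (N - 1) s Z1 u c l hS1, ?_⟩
  intro lam mu hC hJ
  rw [hAZ] at hC
  obtain ⟨hr, hall⟩ := hS2 lam mu hC
  obtain ⟨ha, hb⟩ := hq (lam (N - 1)) (lam s) (mu c) (mu u) (mu v) hr hJ
  refine ⟨ha, ?_⟩
  intro c0 e1 e2 e3 e4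
  obtain ⟨e5, e6, e7⟩ := hb c0 e1 e2 e3 e4
  exact ⟨⟨e5, e6, e7⟩, hall c0 e1 e5 e3 e7⟩

end Pool.Agent.Work.MP_7794fd_co.M
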