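import Pool.Agent.Work.MP_7794fd_co.M.Fin

/-! Project MP_7794fd_co, block M, item PairOld: `PairF` for two old letters after a left step. -/

set_option autoImplicit false

namespace Pool.Agent.Work.MP_7794fd_co.M

open Finset Pool.Agent.Work.MP_7794fd_co.R

namespace I_PairOld

theorem const_seg {α : Type} (lam : ℕ → α) (p q : ℕ)
    (h : ∀ j, p ≤ j → j < q → lam j = lam (j + 1)) : ∀ j, p ≤ j → j ≤ q → lam j = lam p := by
  intro j hj
  induction j, hj using Nat.le_induction with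
  | base => intro _; rfl
  | succ j hj ih =>
    intro hq
    rw [← h j hj (by omega)]
    exact ih (by omega)

end I_PairOld

open I_PairOld in
theorem PairOld_pf (h1 : S_SemSkip) : S_PairOld := by
  intro L _ w N s s' i u v A X g a b hsN hA his hs'i hwi hnew H
  obtain ⟨Z, Y, g1, g2, hZ, hY, hd, hne, hs, hp⟩ := H
  have hiA : i ∉ A := fun h => by have := (hA i h).1; omega
  have hiZ : i ∉ Z := fun h => hiA (hZ h)
  refine ⟨Z, Y, g1, g2, hZ.trans (subset_insert _ _), hY.trans (subset_insert _ _), hd, hne,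
    h1 w N s s' Z a b g1 hsN (by omega) (fun j hj => hA j (hZ hj)) hs, ?_⟩
  intro lam mu hc hj
  have hmem : ∀ j, j ∈ insert i A \ Z ↔ j = i ∨ (j ∈ A ∧ j ∉ Z) := by
    intro j
    rw [mem_sdiff, mem_insert]
    constructor
    · rintro ⟨h | h, h'⟩
      · exact Or.inl h
      · exact Or.inr ⟨h, h'⟩
    · rintro (h | ⟨h, h'⟩)
      · exact ⟨Or.inl h, h ▸ hiZ⟩
      · exact ⟨Or.inr h, h'⟩
  have hc1 : ∀ j, s' ≤ j → j ≤ i → lam j = lam s' := by
    apply const_seg lam s' i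
    intro j hj1 hj2
    refine hc.seg j hj1 (by omega) ?_
    rw [hmem]
    rintro (h | ⟨h, -⟩)
    · omega
    · have := (hA j h).1; omega
  have hc2 : ∀ j, i + 1 ≤ j → j ≤ s → lam j = lam (i + 1) := by
    apply const_seg lam (i + 1) s
    intro j hj1 hj2
    refine hc.seg j (by omega) (by omega) ?_
    rw [hmem]
    rintro (h | ⟨h, -⟩)
    · omega
    · have := (hA j h).1; omega
  have hi1 : lam i = mu (w i) := hc.fst i hs'i (by omega) ((hmem i).2 (Or.inl rfl))
  have hi2 : lam (i + 1) = mu (w (i + 1)) := hc.snd i hs'i (by omega) ((hmem i).2 (Or.inl rfl))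
  have e1 : lam s' = mu u := by rw [← hc1 i hs'i le_rfl, hi1, hwi]
  have e2 : lam s = mu (w (i + 1)) := by rw [hc2 s (by omega) le_rfl, hi2]
  have hc' : Comp w s (N - 1) (A \ Z) lam mu := by
    refine ⟨fun j h2 h3 h4 => ?_, fun j h2 h3 h4 => ?_, fun j h2 h3 h4 => ?_⟩
    · refine hc.seg j (by omega) h3 ?_
      rw [hmem]
      rintro (h | h)
      · omega
      · exact h4 (mem_sdiff.2 h)
    · exact hc.fst j (by omega) h3 ((hmem j).2 (Or.inr (mem_sdiff.1 h4)))
    · exact hc.snd j (by omega) h3 ((hmem j).2 (Or.inr (mem_sdiff.1 h4)))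
  rw [(join_swL g (lam s') (mu (w (i + 1))) (mu v)).1, e1, ← e2] at hj
  rw [(join_swL g (lam s') (mu (w (i + 1))) (mu v)).2]
  obtain ⟨h3, h4⟩ := hp lam mu hc' hj
  have e3 : nearL g (mu (w (i + 1))) (lam s') (mu v) = nearL g (lam s) (mu u) (mu v) := by
    rw [e1, e2]
  rw [e3]
  refine ⟨h3, fun c f1 f2 f3 f4 => ?_⟩
  obtain ⟨⟨f5, f6, f7⟩, f8⟩ := h4 c f1 f2 f3 f4
  refine ⟨⟨e1.trans f6, e2 ▸ f5, f7⟩, fun j g1 g2 => ?_⟩
  rcases Nat.lt_or_ge i j with h | h
  · rcases Nat.lt_or_ge s j with h' | h'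
    · exact f8 j (by omega) g2
    · rw [hc2 j (by omega) h', hi2, ← e2]
      exact f5
  · rw [hc1 j g1 h]
    exact e1.trans f6

end Pool.Agent.Work.MP_7794fd_co.M
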