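import Pool.Agent.Work.MP_7794fd_co.M.Fin

/-! Project MP_7794fd_co, block M, item PastSem: the type of a past path. -/

set_option autoImplicit false

namespace Pool.Agent.Work.MP_7794fd_co.M

open Finset Pool.Agent.Work.MP_7794fd_co.R

namespace I_PastSem

/-- labels which do not change are constant -/
theorem cst {lam : ℕ → Bool} {a b : ℕ} (h : ∀ j, a ≤ j → j < b → lam j = lam (j + 1)) :
    ∀ j, a ≤ j → j ≤ b → lam j = lam a := by
  intro j haj
  induction j, haj using Nat.le_induction with
  | base => intro _; rfl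
  | succ n hn ih =>
    intro hb
    rw [← h n hn (by omega)]
    exact ih (by omega)

variable {L : Type} [DecidableEq L]

/-- the common part of the two steps -/
theorem step (w : ℕ → L) (t i t' : ℕ) (A : Finset ℕ) (hA : ∀ j ∈ A, j < t) (hti : t ≤ i)
    (hit : i < t') (lam : ℕ → Bool) (mu : L → Bool) (hc : Comp w 0 t' (insert i A) lam mu) :
    Comp w 0 t A lam mu ∧ lam t = mu (w i) ∧ lam t' = mu (w (i + 1)) ∧
      (∀ j, t ≤ j → j ≤ i → lam j = lam t) ∧ ∀ j, i + 1 ≤ j → j ≤ t' → lam j = lam t' := by
  have hC : Comp w 0 t A lam mu := by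
    refine ⟨fun j h1 h2 h3 => hc.seg j h1 (by omega) ?_, fun j h1 h2 h3 =>
      hc.fst j h1 (by omega) (mem_insert_of_mem h3), fun j h1 h2 h3 =>
      hc.snd j h1 (by omega) (mem_insert_of_mem h3)⟩
    rw [mem_insert]
    rintro (h | h)
    · omega
    · exact h3 h
  have e1 : lam i = mu (w i) := hc.fst i (by omega) hit (mem_insert_self _ _)
  have e2 : lam (i + 1) = mu (w (i + 1)) := hc.snd i (by omega) hit (mem_insert_self _ _)
  have c1 : ∀ j, t ≤ j → j ≤ i → lam j = lam t := cst fun j h1 h2 =>
    hc.seg j (by omega) (by omega) (by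
      rw [mem_insert]
      rintro (h | h)
      · omega
      · have := hA j h
        omega)
  have c2 : ∀ j, i + 1 ≤ j → j ≤ t' → lam j = lam (i + 1) := cst fun j h1 h2 =>
    hc.seg j (by omega) (by omega) (by
      rw [mem_insert]
      rintro (h | h)
      · omega
      · have := hA j h
        omega)
  have c3 : lam t' = lam (i + 1) := c2 t' (by omega) le_rfl
  refine ⟨hC, (c1 i hti le_rfl).symm.trans e1, c3.trans e2, c1, fun j h1 h2 => ?_⟩
  rw [c3]
  exact c2 j h1 h2

theorem main (w : ℕ → L) (t : ℕ) (a b : L) (A : Finset ℕ) (X : Finset L)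
    (h : Past w t a b A X) : (∀ i ∈ A, i < t) ∧ ∃ g : Fin 3, Sem w 0 t 0 t A a b g := by
  induction h with
  | base t z =>
    refine ⟨by simp, 0, fun lam mu hc => ?_⟩
    have c : ∀ j, 0 ≤ j → j ≤ t → lam j = lam 0 := cst fun j h1 h2 =>
      hc.seg j h1 h2 (by simp)
    refine ⟨⟨fun _ => ⟨(c t (by omega) le_rfl).symm, rfl⟩, fun h => absurd h (by decide),
      fun h => absurd h (by decide)⟩, fun d h1 _ _ _ i h2 h3 => ?_⟩
    rw [c i h2 h3, h1]
  | left t i t' a b A X _ hti hit hwi _ ih =>
    obtain ⟨hA, g, hg⟩ := ih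
    refine ⟨fun j hj => ?_, swL g, fun lam mu hc => ?_⟩
    · rcases mem_insert.mp hj with h | h
      · omega
      · have := hA j h
        omega
    · obtain ⟨hC, e1, e2, c1, c2⟩ := step w t i t' A hA hti hit lam mu hc
      obtain ⟨hR, hL⟩ := hg lam mu hC
      rw [hwi] at e2
      constructor
      · rw [(rel_sw g (lam 0) (lam t') (mu (w i)) (mu b)).1, e2, ← e1]
        exact hR
      · intro c h1 h2 h3 h4 j h5 h6
        rcases le_or_gt j t with h | h
        · exact hL c h1 (e1.trans h3) (e2.symm.trans h2) h4 j h5 h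
        · rcases le_or_gt j i with h' | h'
          · rw [c1 j h.le h', e1, h3]
          · rw [c2 j h' h6, h2]
  | right t i t' a b A X _ hti hit hwi _ ih =>
    obtain ⟨hA, g, hg⟩ := ih
    refine ⟨fun j hj => ?_, swR g, fun lam mu hc => ?_⟩
    · rcases mem_insert.mp hj with h | h
      · omega
      · have := hA j h
        omega
    · obtain ⟨hC, e1, e2, c1, c2⟩ := step w t i t' A hA hti hit lam mu hc
      obtain ⟨hR, hL⟩ := hg lam mu hC
      rw [hwi] at e2
      constructor
      · rw [(rel_sw g (lam 0) (lam t') (mu a) (mu (w i))).2.1, e2, ← e1]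
        exact hR
      · intro c h1 h2 h3 h4 j h5 h6
        rcases le_or_gt j t with h | h
        · exact hL c h1 (e1.trans h4) h3 (e2.symm.trans h2) j h5 h
        · rcases le_or_gt j i with h' | h'
          · rw [c1 j h.le h', e1, h4]
          · rw [c2 j h' h6, h2]

end I_PastSem

theorem PastSem_pf : S_PastSem := by
  intro L _ w t a b A X h
  exact (I_PastSem.main w t a b A X h).2

end Pool.Agent.Work.MP_7794fd_co.M
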