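import Pool.Agent.Work.MP_7794fd_co.M.Fin

/-! MP_7794fd_co, block M, item PastShort: a short subpath between two letters with different
flags. -/

set_option autoImplicit false

namespace Pool.Agent.Work.MP_7794fd_co.M

open Finset Pool.Agent.Work.MP_7794fd_co.R

namespace I_PastShort

theorem ends_mem {L : Type} [DecidableEq L] {w : ℕ → L} {t : ℕ} {a b : L}
    {A : Finset ℕ} {X : Finset L} (h : Past w t a b A X) : a ∈ X ∧ b ∈ X := by
  induction h with
  | base t z => simp
  | left t i t' a b A X _ _ _ _ _ ih =>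
    exact ⟨mem_insert_self _ _, mem_insert_of_mem ih.2⟩
  | right t i t' a b A X _ _ _ _ _ ih =>
    exact ⟨mem_insert_of_mem ih.1, mem_insert_self _ _⟩

end I_PastShort

theorem PastShort_pf (h1 : S_PastSplit) : S_PastShort := by
  intro L _ w t K Y a b A X h ha hb hK
  induction hn : X.card using Nat.strong_induction_on generalizing a b A X with
  | _ n ih =>
    by_cases hc : ∀ x ∈ X, x ∈ Y → x = a ∨ x = b
    · exact ⟨a, b, A, X, h, ha, hb, hK, hc⟩
    · push Not at hc
      obtain ⟨c, hcX, hcY, hca, hcb⟩ := hc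
      obtain ⟨haX, hbX⟩ := I_PastShort.ends_mem h
      obtain ⟨A1, A2, X1, X2, p1, p2, s1, s2, n1, n2⟩ := h1 w t a b A X h c hcX
      by_cases hk : K c = K a
      · have hk2 : K c ≠ K b := by rw [hk]; exact hK
        have hlt : X2.card < n := by
          rw [← hn]
          refine card_lt_card ⟨s2, fun hs => n2 hca (hs haX)⟩
        exact ih X2.card hlt c b A2 X2 p2 hcY hb hk2 rfl
      · have hlt : X1.card < n := by
          rw [← hn]
          refine card_lt_card ⟨s1, fun hs => n1 hcb (hs hbX)⟩
        exact ih X1.card hlt a c A1 X1 p1 ha hcY (fun h => hk h.symm) rfl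

end Pool.Agent.Work.MP_7794fd_co.M
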