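import Pool.Agent.Work.MP_7794fd_co.M.Fin

/-! Project MP_7794fd_co, block M, item PastSplit: splitting a past path at a letter. -/

set_option autoImplicit false

namespace Pool.Agent.Work.MP_7794fd_co.M

open Finset

namespace I_PastSplit

variable {L : Type} [DecidableEq L]

theorem mono (w : ℕ → L) {t : ℕ} {a b : L} {A : Finset ℕ} {X : Finset L} (h : Past w t a b A X)
    {t' : ℕ} (ht : t ≤ t') : Past w t' a b A X := by
  cases h with
  | base _ z => exact Past.base t' a
  | left s i _ a' _ A' X' h1 h2 h3 h4 h5 =>
    exact Past.left s i t' a' b A' X' h1 h2 (lt_of_lt_of_le h3 ht) h4 h5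
  | right s i _ _ b' A' X' h1 h2 h3 h4 h5 =>
    exact Past.right s i t' a b' A' X' h1 h2 (lt_of_lt_of_le h3 ht) h4 h5

theorem ends (w : ℕ → L) {t : ℕ} {a b : L} {A : Finset ℕ} {X : Finset L} (h : Past w t a b A X) :
    a ∈ X ∧ b ∈ X := by
  induction h with
  | base t z => simp
  | left s i t' a b A X h1 h2 h3 h4 h5 ih =>
    exact ⟨mem_insert_self _ _, mem_insert_of_mem ih.2⟩
  | right s i t' a b A X h1 h2 h3 h4 h5 ih =>
    exact ⟨mem_insert_of_mem ih.1, mem_insert_self _ _⟩

end I_PastSplit

open I_PastSplit in
theorem PastSplit_pf : S_PastSplit := by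
  intro L _ w t a b A X h
  induction h with
  | base t z =>
    intro c hc
    have hc' : c = z := by simpa using hc
    subst hc'
    exact ⟨∅, ∅, {c}, {c}, Past.base t c, Past.base t c, Subset.rfl, Subset.rfl,
      fun h => (h rfl).elim, fun h => (h rfl).elim⟩
  | left s i t' a b A X h1 h2 h3 h4 h5 ih =>
    intro c hc
    have hst : s ≤ t' := le_trans h2 h3.le
    have hb : b ∈ X := (ends w h1).2
    rcases mem_insert.1 hc with hc | hc
    · subst hc
      refine ⟨∅, insert i A, {w i}, insert (w i) X, Past.base t' (w i),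
        Past.left s i t' a b A X h1 h2 h3 h4 h5, ?_, Subset.rfl, ?_, fun h => (h rfl).elim⟩
      · intro x hx
        rw [mem_singleton] at hx
        subst hx
        exact mem_insert_self _ _
      · intro h hb'
        rw [mem_singleton] at hb'
        exact h hb'.symm
    · obtain ⟨A1, A2, X1, X2, p1, p2, s1, s2, n1, n2⟩ := ih c hc
      refine ⟨insert i A1, A2, insert (w i) X1, X2,
        Past.left s i t' a c A1 X1 p1 h2 h3 h4 (fun h => h5 (s1 h)), mono w p2 hst,
        insert_subset_insert _ s1, s2.trans (subset_insert _ _), ?_, fun _ h => h5 (s2 h)⟩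
      intro hcb hbX
      rcases mem_insert.1 hbX with hbX | hbX
      · exact h5 (hbX ▸ hb)
      · exact n1 hcb hbX
  | right s i t' a b A X h1 h2 h3 h4 h5 ih =>
    intro c hc
    have hst : s ≤ t' := le_trans h2 h3.le
    have ha : a ∈ X := (ends w h1).1
    rcases mem_insert.1 hc with hc | hc
    · subst hc
      refine ⟨insert i A, ∅, insert (w i) X, {w i}, Past.right s i t' a b A X h1 h2 h3 h4 h5,
        Past.base t' (w i), Subset.rfl, ?_, fun h => (h rfl).elim, ?_⟩
      · intro x hx
        rw [mem_singleton] at hx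
        subst hx
        exact mem_insert_self _ _
      · intro h ha'
        rw [mem_singleton] at ha'
        exact h ha'.symm
    · obtain ⟨A1, A2, X1, X2, p1, p2, s1, s2, n1, n2⟩ := ih c hc
      refine ⟨A1, insert i A2, X1, insert (w i) X2, mono w p1 hst,
        Past.right s i t' c b A2 X2 p2 h2 h3 h4 (fun h => h5 (s2 h)),
        s1.trans (subset_insert _ _), insert_subset_insert _ s2, fun _ h => h5 (s1 h), ?_⟩
      intro hca haX
      rcases mem_insert.1 haX with haX | haX
      · exact h5 (haX ▸ ha)
      · exact n2 hca haX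

end Pool.Agent.Work.MP_7794fd_co.M
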