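import Pool.Agent.Work.MP_7794fd_co.M.Fin

/-! Item PastSym of block M of MP_7794fd_co: symmetry and monotonicity of past paths. -/

set_option autoImplicit false

namespace Pool.Agent.Work.MP_7794fd_co.M

theorem PastSym_pf : S_PastSym := by
  intro L _ w t a b A X h
  refine ⟨?_, ?_⟩
  · induction h with
    | base t z => exact Past.base t z
    | left t i t' a b A X _ hti hit hw hX ih => exact Past.right t i t' b a A X ih hti hit hw hX
    | right t i t' a b A X _ hti hit hw hX ih => exact Past.left t i t' b a A X ih hti hit hw hX
  · intro t' ht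
    cases h with
    | base t z => exact Past.base t' _
    | left t0 i _ a0 _ A0 X0 h0 hti hit hw hX =>
      exact Past.left t0 i t' a0 _ A0 X0 h0 hti (lt_of_lt_of_le hit ht) hw hX
    | right t0 i _ _ b0 A0 X0 h0 hti hit hw hX =>
      exact Past.right t0 i t' _ b0 A0 X0 h0 hti (lt_of_lt_of_le hit ht) hw hX

end Pool.Agent.Work.MP_7794fd_co.M
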