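import Pool.Agent.Work.MP_7794fd_co.M.Fin

/-! MP_7794fd_co, block M, item Rev: a past path of the reversed word is a future path. -/

set_option autoImplicit false

namespace Pool.Agent.Work.MP_7794fd_co.M

open Finset Pool.Agent.Work.MP_7794fd_co.R

namespace I_Rev

lemma aux {L : Type} [DecidableEq L] (w w' : ℕ → L) (N : ℕ) (hN : 0 < N)
    (hw : ∀ i, w' i = w (N - 1 - i)) (t : ℕ) (u v : L) (A : Finset ℕ) (X : Finset L)
    (h : Past w' t u v A X) : t ≤ N - 1 → ∃ A' : Finset ℕ, Fut w N (N - 1 - t) u v A' X := by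
  induction h with
  | base t z => exact fun _ => ⟨∅, Fut.base _ _ (by omega)⟩
  | left t i t' a b A X _ h1 h2 h3 h4 ih =>
    intro ht
    obtain ⟨A', hA'⟩ := ih (by omega)
    have e1 : w (N - 2 - i) = a := by
      rw [← h3, hw]
      congr 1
      omega
    have e2 : w (N - 2 - i + 1) = w' i := by
      rw [hw]
      congr 1
      omega
    refine ⟨insert (N - 2 - i) A', ?_⟩
    rw [← e2] at h4 ⊢
    exact Fut.left (N - 1 - t) (N - 2 - i) (N - 1 - t') a b A' X hA' (by omega) (by omega) e1 h4
  | right t i t' a b A X _ h1 h2 h3 h4 ih =>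
    intro ht
    obtain ⟨A', hA'⟩ := ih (by omega)
    have e1 : w (N - 2 - i) = b := by
      rw [← h3, hw]
      congr 1
      omega
    have e2 : w (N - 2 - i + 1) = w' i := by
      rw [hw]
      congr 1
      omega
    refine ⟨insert (N - 2 - i) A', ?_⟩
    rw [← e2] at h4 ⊢
    exact Fut.right (N - 1 - t) (N - 2 - i) (N - 1 - t') a b A' X hA' (by omega) (by omega) e1 h4

end I_Rev

theorem Rev_pf : S_Rev := by
  intro L _ w N t u v A X hN ht h
  exact I_Rev.aux w _ N hN (fun _ => rfl) t u v A X h ht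

end Pool.Agent.Work.MP_7794fd_co.M
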