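import Pool.Agent.Work.MP_7794fd_co.M.Fin

/-! Project MP_7794fd_co, block M, item SemFl: types of future paths, the symmetry. -/

set_option autoImplicit false

namespace Pool.Agent.Work.MP_7794fd_co.M

open Finset Pool.Agent.Work.MP_7794fd_co.R

theorem SemFl_pf : S_SemFl := by
  intro L _ w s t f n Z x y g h lam mu hc
  obtain ⟨h1, h2⟩ := h lam mu hc
  exact ⟨(rel_sw g (lam f) (lam n) (mu y) (mu x)).2.2.2 h1,
    fun c e1 e2 e3 e4 => h2 c e1 e2 e4 e3⟩

end Pool.Agent.Work.MP_7794fd_co.M
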