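import Pool.Agent.Work.MP_7794fd_co.M.Fin

/-! Item SemSkip of block M of MP_7794fd_co: a larger window without new gaps. -/

set_option autoImplicit false

namespace Pool.Agent.Work.MP_7794fd_co.M

namespace I_SemSkip

variable {L : Type} [DecidableEq L]

theorem const (w : ℕ → L) (N s s' : ℕ) (Z : Finset ℕ) (hs : s < N)
    (hZ : ∀ j ∈ Z, s ≤ j ∧ j + 1 < N) (lam : ℕ → Bool) (mu : L → Bool)
    (h : Comp w s' (N - 1) Z lam mu) : ∀ k i, s' ≤ i → i + k = s → lam i = lam s := by
  intro k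
  induction k with
  | zero => intro i _ h2; rw [show i = s by omega]
  | succ k ih =>
    intro i h1 h2
    have h3 : i ∉ Z := fun h4 => by
      have := (hZ i h4).1
      omega
    rw [h.seg i h1 (by omega) h3]
    exact ih (i + 1) (by omega) (by omega)

end I_SemSkip

theorem SemSkip_pf : S_SemSkip := by
  intro L _ w N s s' Z x y g hs hss hZ hSem lam mu hC
  have hc := I_SemSkip.const w N s s' Z hs hZ lam mu hC
  have hC' : Comp w s (N - 1) Z lam mu :=
    ⟨fun i h1 h2 h3 => hC.seg i (by omega) h2 h3, fun i h1 h2 h3 => hC.fst i (by omega) h2 h3,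
      fun i h1 h2 h3 => hC.snd i (by omega) h2 h3⟩
  obtain ⟨h1, h2⟩ := hSem lam mu hC'
  have h0 : lam s' = lam s := hc (s - s') s' le_rfl (by omega)
  refine ⟨by rw [h0]; exact h1, ?_⟩
  intro c e1 e2 e3 e4 i hi1 hi2
  rw [h0] at e2
  by_cases h : s ≤ i
  · exact h2 c e1 e2 e3 e4 i h hi2
  · rw [hc (s - i) i hi1 (by omega), e2]

end Pool.Agent.Work.MP_7794fd_co.M
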