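import Pool.Agent.Work.MP_7794fd_co.M.Fin

/-! Project MP_7794fd_co, block M, item SplitOld: the split of a future path at an old letter after
a left step. -/

set_option autoImplicit false

namespace Pool.Agent.Work.MP_7794fd_co.M

open Finset

theorem SplitOld_pf (h1 : S_SemSkip) (h2 : S_SemLeft) (h3 : S_DegLeft) : S_SplitOld := by
  intro L _ w N s s' i u v A X k c hs hA his hsi hwu hX hsp
  obtain ⟨Z1, Z2, Y1, Y2, l, r, hU, hD, hY1, hY2, d1, d2, m1, m2, hlr, hk⟩ := hsp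
  have hZ1 : Z1 ⊆ A := hU ▸ subset_union_left
  have hZ2 : Z2 ⊆ A := hU ▸ subset_union_right
  have hiA : i ∉ A := fun h => absurd (hA i h).1 (not_le.2 his)
  have hsw : swL l = 1 ↔ l = 1 := (sw_one l).1
  refine ⟨insert i Z1, Z2, insert (w (i + 1)) Y1, Y2, swL l, r, ?_, ?_, insert_subset_insert _ hY1,
    hY2.trans (subset_insert _ _), ?_, d2, ?_, ?_, ?_, ?_⟩
  · rw [insert_union, hU]
  · rw [disjoint_insert_left]
    exact ⟨fun h => hiA (hZ2 h), hD⟩
  · exact (h3 w Z1 Y1 u c d1).2 i (fun h => hiA (hZ1 h)) hwu (fun h => hX (hY1 h))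
  · exact h2 w N s s' i Z1 u c l hs his hsi (fun j hj => hA j (hZ1 hj)) hwu m1
  · exact h1 w N s s' Z2 c v r hs (le_trans hsi his.le) (fun j hj => hA j (hZ2 hj)) m2
  · rw [hsw]
    exact hlr
  · rw [hsw]
    exact hk

end Pool.Agent.Work.MP_7794fd_co.M
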