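import Pool.Agent.Work.MP_7794fd_co.M.Fin

/-! Project MP_7794fd_co, block M: the theta lemma. -/

set_option autoImplicit false

namespace Pool.Agent.Work.MP_7794fd_co.M

open Finset Pool.Agent.Work.MP_7794fd_co.R

namespace I_Theta

variable {L : Type} [DecidableEq L]

lemma gdeg_union (w : ℕ → L) (F G : Finset ℕ) (h : Disjoint F G) (x : L) :
    gdeg w (F ∪ G) x = gdeg w F x + gdeg w G x := by
  unfold gdeg
  rw [filter_union, filter_union, card_union_of_disjoint, card_union_of_disjoint]
  · omega
  · exact disjoint_filter_filter h
  · exact disjoint_filter_filter h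

lemma gdeg_sdiff (w : ℕ → L) (A Z : Finset ℕ) (h : Z ⊆ A) (x : L) :
    gdeg w (A \ Z) x + gdeg w Z x = gdeg w A x := by
  rw [← gdeg_union w (A \ Z) Z sdiff_disjoint x, sdiff_union_of_subset h]

lemma gdeg_single (w : ℕ → L) (t : ℕ) (x : L) :
    gdeg w {t} x = (if x = w t then 1 else 0) + (if x = w (t + 1) then 1 else 0) := by
  unfold gdeg
  rw [filter_singleton, filter_singleton]
  by_cases h1 : x = w t
  · by_cases h2 : x = w (t + 1)
    · rw [if_pos h1.symm, if_pos h2.symm, if_pos h1, if_pos h2, card_singleton]
    · rw [if_pos h1.symm, if_neg (fun h => h2 h.symm), if_pos h1, if_neg h2, card_singleton,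
        card_empty]
  · by_cases h2 : x = w (t + 1)
    · rw [if_neg (fun h => h1 h.symm), if_pos h2.symm, if_neg h1, if_pos h2, card_singleton,
        card_empty]
    · rw [if_neg (fun h => h1 h.symm), if_neg (fun h => h2 h.symm), if_neg h1, if_neg h2,
        card_empty]

omit [DecidableEq L] in
lemma comp_mono (w : ℕ → L) (s t s' t' : ℕ) (F G : Finset ℕ) (lam : ℕ → Bool) (mu : L → Bool)
    (hc : Comp w s t F lam mu) (hs : s ≤ s') (ht : t' ≤ t)
    (hFG : ∀ i, s' ≤ i → i < t' → (i ∈ F ↔ i ∈ G)) : Comp w s' t' G lam mu := by
  refine ⟨fun i h1 h2 h3 => ?_, fun i h1 h2 h3 => ?_, fun i h1 h2 h3 => ?_⟩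
  · exact hc.seg i (by omega) (by omega) (fun h => h3 ((hFG i h1 h2).1 h))
  · exact hc.fst i (by omega) (by omega) ((hFG i h1 h2).2 h3)
  · exact hc.snd i (by omega) (by omega) ((hFG i h1 h2).2 h3)

end I_Theta

open I_Theta

theorem Theta_pf : S_Theta := by
  intro L _ w N t A B X Y a b m htN hne hA hdA hP hB hdB hsB hab hXY
  obtain ⟨Z, Y', g1, g2, hZA, hYX, hdZ, hg, hsZ, hrest⟩ := hP
  have hBZ : Disjoint B Z := by
    rw [disjoint_left]
    intro j h1 h2
    have := hB j h1
    have := hA j (hZA h2)
    omega
  have hBA : Disjoint B (A \ Z) := by
    rw [disjoint_left]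
    intro j h1 h2
    have := hB j h1
    have := hA j (mem_sdiff.1 h2).1
    omega
  obtain ⟨haX, hbX, hdA⟩ := hdA
  obtain ⟨haY, hbY, hdB⟩ := hdB
  obtain ⟨haY', hbY', hdZ⟩ := hdZ
  by_cases hm : m ≠ g1
  · refine ⟨B ∪ Z, ?_, ?_, ?_, ?_⟩
    · rw [Finset.nonempty_iff_ne_empty]
      intro he
      have hZe : Z = ∅ := (union_eq_empty.1 he).2
      have := hdZ a
      simp [hZe, gdeg, haY', hab] at this
    · intro i hi
      rcases mem_union.1 hi with h | h
      · have := hB i h
        omega
      · exact (hA i (hZA h)).2
    · intro x
      rw [gdeg_union w B Z hBZ x]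
      have h1 := hdB x
      have h2 := hdZ x
      by_cases hxa : x = a
      · subst hxa
        have hxb : x ≠ b := hab
        simp only [haY, haY', if_true, hxb, if_false] at h1 h2
        right
        omega
      · by_cases hxb : x = b
        · subst hxb
          simp only [hbY, hbY', if_true, hxa, if_false] at h1 h2
          right
          omega
        · by_cases hxY : x ∈ Y
          · have hxY' : x ∉ Y' := fun h => by
              rcases hXY x hxY (hYX h) with h | h
              · exact hxa h
              · exact hxb h
            simp only [hxa, hxb, hxY, hxY', if_true, if_false] at h1 h2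
            right
            omega
          · simp only [hxa, hxb, hxY, if_false] at h1 h2
            split_ifs at h2 with hxY'
            · right
              omega
            · left
              omega
    · intro lam mu hc h0
      have hc1 : Comp w 0 t B lam mu := by
        refine comp_mono w 0 (N - 1) 0 t (B ∪ Z) B lam mu hc le_rfl (by omega) ?_
        intro i _ hit
        constructor
        · intro h
          rcases mem_union.1 h with h | h
          · exact h
          · have := hA i (hZA h)
            omega
        · intro h
          exact mem_union_left _ h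
      have hc2 : Comp w (t + 1) (N - 1) Z lam mu := by
        refine comp_mono w 0 (N - 1) (t + 1) (N - 1) (B ∪ Z) Z lam mu hc (by omega) le_rfl ?_
        intro i hit _
        constructor
        · intro h
          rcases mem_union.1 h with h | h
          · have := hB i h
            omega
          · exact h
        · intro h
          exact mem_union_right _ h
      have ht : t ∉ B ∪ Z := by
        intro h
        rcases mem_union.1 h with h | h
        · have := hB t h
          omega
        · have := hA t (hZA h)
          omega
      have htt := hc.seg t (Nat.zero_le _) (by omega) ht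
      obtain ⟨hr1, hl1⟩ := hsB lam mu hc1
      obtain ⟨hr2, hl2⟩ := hsZ lam mu hc2
      rw [← h0, ← htt] at hr2
      obtain ⟨e1, e2, e3⟩ := rel_ne m g1 _ _ _ _ hm hr1 hr2
      have k1 := hl1 (lam 0) rfl e1.symm (by rw [← e2, ← e1]) (by rw [← e3, ← e2, ← e1])
      have k2 := hl2 (lam 0) h0.symm (by rw [← htt, ← e1]) (by rw [← e2, ← e1])
        (by rw [← e3, ← e2, ← e1])
      intro i hi
      rcases Nat.lt_or_ge t i with h | h
      · exact k2 i (by omega) (by omega)
      · exact k1 i (Nat.zero_le _) h
  · have hm1 : m = g1 := not_not.1 hm
    have hm2 : m ≠ g2 := by rw [hm1]; exact hg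
    have htA : t ∉ A := fun h => by
      have := hA t h
      omega
    have htB : t ∉ B := fun h => by
      have := hB t h
      omega
    have hdisj : Disjoint (B ∪ (A \ Z)) {t} := by
      rw [disjoint_singleton_right]
      intro h
      rcases mem_union.1 h with h | h
      · exact htB h
      · exact htA (mem_sdiff.1 h).1
    refine ⟨(B ∪ (A \ Z)) ∪ {t}, ?_, ?_, ?_, ?_⟩
    · exact ⟨t, mem_union_right _ (mem_singleton_self t)⟩
    · intro i hi
      rcases mem_union.1 hi with hi | hi
      · rcases mem_union.1 hi with h | h
        · have := hB i h
          omega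
        · exact (hA i (mem_sdiff.1 h).1).2
      · rw [mem_singleton.1 hi]
        exact htN
    · intro x
      rw [gdeg_union w _ _ hdisj x, gdeg_union w B (A \ Z) hBA x, gdeg_single]
      have h0 := gdeg_sdiff w A Z hZA x
      have h1 := hdB x
      have h2 := hdZ x
      have h3 := hdA x
      have hYX' : x ∈ Y' → x ∈ X := fun h => hYX h
      have hXYx := hXY x
      by_cases hxa : x = a
      · subst hxa
        have hxX : x ∈ X := hYX haY'
        have hxb : x ≠ b := hab
        simp only [haY, haY', if_true, hxb, if_false, hxX] at h1 h2 h3
        right
        omega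
      · by_cases hxb : x = b
        · subst hxb
          have hxX : x ∈ X := hYX hbY'
          simp only [hbY, hbY', if_true, hxa, if_false, hxX] at h1 h2 h3
          right
          omega
        · by_cases hxY : x ∈ Y
          · have hxX : x ∉ X := fun h => by
              rcases hXYx hxY h with h | h
              · exact hxa h
              · exact hxb h
            have hxY' : x ∉ Y' := fun h => hxX (hYX h)
            simp only [hxa, hxb, hxY, hxY', hxX, if_true, if_false] at h1 h2 h3
            right
            omega
          · simp only [hxa, hxb, hxY, if_false] at h1 h2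
            by_cases hxX : x ∈ X
            · by_cases hxY' : x ∈ Y'
              · simp only [hxY', hxX, if_true] at h2 h3
                left
                omega
              · simp only [hxY', hxX, if_true, if_false] at h2 h3
                right
                omega
            · have hxY' : x ∉ Y' := fun h => hxX (hYX h)
              simp only [hxY', hxX, if_false] at h2 h3
              left
              omega
    · intro lam mu hc h0
      have hc1 : Comp w 0 t B lam mu := by
        refine comp_mono w 0 (N - 1) 0 t _ B lam mu hc le_rfl (by omega) ?_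
        intro i _ hit
        constructor
        · intro h
          rcases mem_union.1 h with h | h
          · rcases mem_union.1 h with h | h
            · exact h
            · have := hA i (mem_sdiff.1 h).1
              omega
          · have := mem_singleton.1 h
            omega
        · intro h
          exact mem_union_left _ (mem_union_left _ h)
      have hc2 : Comp w (t + 1) (N - 1) (A \ Z) lam mu := by
        refine comp_mono w 0 (N - 1) (t + 1) (N - 1) _ (A \ Z) lam mu hc (by omega) le_rfl ?_
        intro i hit _
        constructor
        · intro h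
          rcases mem_union.1 h with h | h
          · rcases mem_union.1 h with h | h
            · have := hB i h
              omega
            · exact h
          · have := mem_singleton.1 h
            omega
        · intro h
          exact mem_union_left _ (mem_union_right _ h)
      have ht : t ∈ (B ∪ (A \ Z)) ∪ {t} := mem_union_right _ (mem_singleton_self t)
      have ht1 := hc.fst t (Nat.zero_le _) (by omega) ht
      have ht2 := hc.snd t (Nat.zero_le _) (by omega) ht
      obtain ⟨hr1, hl1⟩ := hsB lam mu hc1
      have hJ : Join 2 (lam (t + 1)) (mu (w t)) (mu (w (t + 1))) := by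
        refine ⟨fun h => ?_, fun h => ?_, fun _ => ht2⟩
        · exact absurd h (by decide)
        · exact absurd h (by decide)
      obtain ⟨hr2, hl2⟩ := hrest lam mu hc2 hJ
      have hn : nearL 2 (lam (t + 1)) (mu (w t)) (mu (w (t + 1))) = lam t := by
        rw [ht1]
        rfl
      rw [hn] at hr2 hl2
      rw [← h0] at hr2
      obtain ⟨e1, e2, e3⟩ := rel_ne m g2 _ _ _ _ hm2 hr1 hr2
      have k1 := hl1 (lam 0) rfl e1.symm (by rw [← e2, ← e1]) (by rw [← e3, ← e2, ← e1])
      have k2 := (hl2 (lam 0) h0.symm e1.symm (by rw [← e2, ← e1])
        (by rw [← e3, ← e2, ← e1])).2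
      intro i hi
      rcases Nat.lt_or_ge t i with h | h
      · exact k2 i (by omega) (by omega)
      · exact k1 i (Nat.zero_le _) h

end Pool.Agent.Work.MP_7794fd_co.M
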