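import Pool.Agent.Work.MP_7794fd_co.M.Stmts2

/-! Block M, item WordMain2: the theorem on words with the better bound. -/

set_option autoImplicit false

namespace Pool.Agent.Work.MP_7794fd_co.M

open Finset

namespace WordMain2

/-- the bad gaps -/
def bad {L : Type} [DecidableEq L] (w : ℕ → L) (n : ℕ) : Finset ℕ :=
  (range n).filter fun i => Disjoint (OS w i (w i)) (OS w i (w (i + 1)))

theorem exists_gap (N : ℕ) (A B : Finset ℕ) (_ : A ⊆ range (N - 1)) (_ : B ⊆ range (N - 1))
    (h : A.card + B.card < N - 1) : ∃ i, i < N - 1 ∧ i ∉ A ∧ N - 2 - i ∉ B := by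
  by_contra hc
  push Not at hc
  have h1 : range (N - 1) ⊆ A ∪ B.image (fun j => N - 2 - j) := by
    intro i hi
    rw [mem_range] at hi
    by_cases hiA : i ∈ A
    · exact mem_union_left _ hiA
    · refine mem_union_right _ (mem_image.2 ⟨N - 2 - i, hc i hi hiA, ?_⟩)
      omega
  have h2 := card_le_card h1
  rw [card_range] at h2
  have h3 := card_union_le A (B.image (fun j => N - 2 - j))
  have h4 : (B.image (fun j => N - 2 - j)).card ≤ B.card := card_image_le
  omega

end WordMain2

theorem WordMain2_pf (hC : S_Count2) (hO : S_OPast) (hR : S_Rev) (hS : S_PastSym) (hL : S_LemC)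
    (h1 : S_Single) : S_WordMain2 := by
  intro L _ _ w N hN
  set w' : ℕ → L := fun i => w (N - 1 - i) with hw'
  have c1 := hC w (N - 1)
  have c2 := hC w' (N - 1)
  set A := (range (N - 1)).filter fun i => Disjoint (OS w i (w i)) (OS w i (w (i + 1))) with hA
  set B := (range (N - 1)).filter fun i => Disjoint (OS w' i (w' i)) (OS w' i (w' (i + 1)))
    with hB
  have hcard : A.card + B.card < N - 1 := by
    have h2 : 2 ^ (A.card + B.card) < 2 ^ (N - 1) := by
      calc 2 ^ (A.card + B.card) = 2 ^ A.card * 2 ^ B.card := pow_add _ _ _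
        _ ≤ Fintype.card L ^ Fintype.card L * Fintype.card L ^ Fintype.card L :=
          Nat.mul_le_mul c1 c2
        _ = Fintype.card L ^ (2 * Fintype.card L) := by rw [← pow_add, two_mul]
        _ < 2 ^ (N - 1) := hN
    exact (Nat.pow_lt_pow_iff_right (by norm_num)).1 h2
  obtain ⟨i, hi, hiA, hiB⟩ := WordMain2.exists_gap N A B (filter_subset _ _) (filter_subset _ _)
    hcard
  have hi1 : i + 1 < N := by omega
  by_cases heq : w i = w (i + 1)
  · exact ⟨{i}, h1 w N i hi1 heq⟩
  have g1 : ¬ Disjoint (OS w i (w i)) (OS w i (w (i + 1))) := fun h =>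
    hiA (mem_filter.2 ⟨mem_range.2 hi, h⟩)
  have g2 : ¬ Disjoint (OS w' (N - 2 - i) (w' (N - 2 - i))) (OS w' (N - 2 - i) (w' (N - 2 - i + 1)))
      := fun h => hiB (mem_filter.2 ⟨mem_range.2 (by omega), h⟩)
  have e1 : w' (N - 2 - i) = w (i + 1) := by
    simp only [hw']
    congr 1
    omega
  have e2 : w' (N - 2 - i + 1) = w i := by
    simp only [hw']
    congr 1
    omega
  rw [e1, e2] at g2
  obtain ⟨B', Y, hP⟩ := hO w i (w i) (w (i + 1)) g1
  obtain ⟨A', X, hQ⟩ := hO w' (N - 2 - i) (w (i + 1)) (w i) g2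
  obtain ⟨A'', hF⟩ := hR w N (N - 2 - i) (w i) (w (i + 1)) A' X (by omega) (by omega)
    (hS w' (N - 2 - i) (w (i + 1)) (w i) A' X hQ).1
  have e3 : N - 1 - (N - 2 - i) = i + 1 := by omega
  rw [e3] at hF
  exact hL w N i A'' B' X Y hi1 heq hP hF

end Pool.Agent.Work.MP_7794fd_co.M
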