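import Pool.Agent.Work.MP_7794fd_co.M.Stmts

/-! Project MP_7794fd_co, block M: the finite checks. -/

set_option autoImplicit false

namespace Pool.Agent.Work.MP_7794fd_co.M

instance instDecRel (g : Fin 3) (T H x y : Bool) : Decidable (Rel g T H x y) := by
  unfold Rel; infer_instance

instance instDecJoin (g : Fin 3) (H x y : Bool) : Decidable (Join g H x y) := by
  unfold Join; infer_instance

/-- auxiliary predicate for the key check -/
def KeyQ (l r g g2 : Fin 3) : Prop := fl l ≠ g2 ∧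
  ∀ T H a b V : Bool, Rel r T H a V → Join g H b V → Rel g2 T (nearL g H b V) a b ∧
    (∀ c : Bool, T = c → nearL g H b V = c → a = c → b = c → H = c ∧ b = c ∧ V = c)

instance instDecKeyQ (l r g g2 : Fin 3) : Decidable (KeyQ l r g g2) := by
  unfold KeyQ; infer_instance

/-- the key check (for `PairNew`) -/
theorem key_check : ∀ (l r g : Fin 3) (k : Bool), ¬ (l = 1 ∧ r = 2) →
    (k = true ↔ (l = 1 ∨ r = 2)) → k ≠ decide (g = 2) → ∃ g2 : Fin 3, KeyQ l r g g2 := by
  decide

theorem join_swL : ∀ (g : Fin 3) (H U V : Bool), (Join (swL g) H U V ↔ Join g U H V) ∧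
    nearL (swL g) H U V = nearL g U H V := by decide

theorem join_fl : ∀ (g : Fin 3) (H U V : Bool), (Join (fl g) H U V ↔ Join g H V U) ∧
    nearL (fl g) H U V = nearL g H V U := by decide

theorem rel_sw : ∀ (g : Fin 3) (T H x y : Bool), (Rel (swL g) T H x y ↔ Rel g T x H y) ∧
    (Rel (swR g) T H x y ↔ Rel g T y x H) ∧ (Rel (fl g) T H x y ↔ Rel g T H y x) := by decide

/-- two different types force all labels to be equal -/
theorem rel_ne : ∀ (m g : Fin 3) (T H a b : Bool), m ≠ g → Rel m T H a b → Rel g T H a b →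
    T = H ∧ H = a ∧ a = b := by decide

theorem sw_one : ∀ g : Fin 3, (swL g = 1 ↔ g = 1) ∧ (fl g = 1 ↔ g = 2) ∧ (fl g = 2 ↔ g = 1) ∧
    (swR g = 2 ↔ g = 2) ∧ fl (fl g) = g ∧ swR g = fl (swL (fl g)) := by decide

end Pool.Agent.Work.MP_7794fd_co.M
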