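import Pool.Agent.Work.MP_7794fd_co.M.Fin

/-! Item `Close` of block M: a gap with a future path of type different from `2` is a pattern. -/

set_option autoImplicit false

namespace Pool.Agent.Work.MP_7794fd_co.M

open Finset

namespace I_Close

theorem fin3 : ∀ g : Fin 3, g ≠ 2 → g = 0 ∨ g = 1 := by decide

theorem gdeg_insert {L : Type} [DecidableEq L] (w : ℕ → L) (A : Finset ℕ) (t : ℕ) (ht : t ∉ A)
    (x : L) : gdeg w (insert t A) x =
      gdeg w A x + (if x = w t then 1 else 0) + (if x = w (t + 1) then 1 else 0) := by
  unfold gdeg
  rw [Finset.filter_insert, Finset.filter_insert]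
  have h1 : t ∉ A.filter fun i => w i = x := fun h => ht (Finset.mem_filter.mp h).1
  have h2 : t ∉ A.filter fun i => w (i + 1) = x := fun h => ht (Finset.mem_filter.mp h).1
  have c1 : (if w t = x then insert t (A.filter fun i => w i = x)
      else A.filter fun i => w i = x).card =
      (A.filter fun i => w i = x).card + (if x = w t then 1 else 0) := by
    by_cases e1 : w t = x
    · have e1' : x = w t := e1.symm
      rw [if_pos e1, if_pos e1', Finset.card_insert_of_notMem h1]
    · have e1' : ¬ x = w t := fun h => e1 h.symm
      rw [if_neg e1, if_neg e1', Nat.add_zero]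
  have c2 : (if w (t + 1) = x then insert t (A.filter fun i => w (i + 1) = x)
      else A.filter fun i => w (i + 1) = x).card =
      (A.filter fun i => w (i + 1) = x).card + (if x = w (t + 1) then 1 else 0) := by
    by_cases e1 : w (t + 1) = x
    · have e1' : x = w (t + 1) := e1.symm
      rw [if_pos e1, if_pos e1', Finset.card_insert_of_notMem h2]
    · have e1' : ¬ x = w (t + 1) := fun h => e1 h.symm
      rw [if_neg e1, if_neg e1', Nat.add_zero]
  rw [c1, c2]
  omega

end I_Close

theorem Close_pf : S_Close := by
  intro L _ w N t A X g htN _ hA hdeg hsem hg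
  have htA : t ∉ A := fun h => by
    have := (hA t h).1
    omega
  refine ⟨Finset.insert_nonempty _ _, ?_, ?_, ?_⟩
  · intro i hi
    rcases Finset.mem_insert.mp hi with h | h
    · omega
    · exact (hA i h).2
  · intro x
    rw [I_Close.gdeg_insert w A t htA x, hdeg.2.2 x]
    by_cases hx : x ∈ X
    · rw [if_pos hx]
      exact Or.inr rfl
    · rw [if_neg hx]
      exact Or.inl rfl
  · intro lam mu hC h0
    have hc1 : ∀ i, i ≤ t → lam i = lam 0 := by
      intro i
      induction i with
      | zero => intro _; rfl
      | succ i ih =>
        intro hi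
        rw [← ih (by omega)]
        refine (hC.seg i (Nat.zero_le _) (by omega) ?_).symm
        intro h
        rcases Finset.mem_insert.mp h with h | h
        · omega
        · have := (hA i h).1
          omega
    have hf := hC.fst t (Nat.zero_le _) (by omega) (Finset.mem_insert_self _ _)
    have hs := hC.snd t (Nat.zero_le _) (by omega) (Finset.mem_insert_self _ _)
    have hCA : Comp w (t + 1) (N - 1) A lam mu := by
      refine ⟨?_, ?_, ?_⟩
      · intro i h1 h2 h3
        refine hC.seg i (Nat.zero_le _) h2 ?_
        intro h
        rcases Finset.mem_insert.mp h with h | h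
        · omega
        · exact h3 h
      · intro i _ h2 h3
        exact hC.fst i (Nat.zero_le _) h2 (Finset.mem_insert_of_mem h3)
      · intro i _ h2 h3
        exact hC.snd i (Nat.zero_le _) h2 (Finset.mem_insert_of_mem h3)
    obtain ⟨⟨r0, r1, _⟩, hall⟩ := hsem lam mu hCA
    have hT : lam (N - 1) = lam 0 := h0.symm
    have hx : mu (w t) = lam 0 := by rw [← hf]; exact hc1 t le_rfl
    have hH : lam (t + 1) = lam 0 := by
      have hcase : g = 0 ∨ g = 1 := I_Close.fin3 g hg
      rcases hcase with e | e
      · rw [← (r0 e).1, hT]
      · rw [(r1 e).1, hx]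
    have hy : mu (w (t + 1)) = lam 0 := by rw [← hs, hH]
    intro i hi
    by_cases hit : i ≤ t
    · exact hc1 i hit
    · exact hall (lam 0) hT hH hx hy i (by omega) (by omega)

end Pool.Agent.Work.MP_7794fd_co.M
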