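import Pool.Agent.Work.MP_7794fd_co.M.Fin

/-! Project MP_7794fd_co, block M, item Count: the gossip count. -/

set_option autoImplicit false

namespace Pool.Agent.Work.MP_7794fd_co.M

open Finset Pool.Agent.Work.MP_7794fd_co.R

namespace I_Count

variable {L : Type} [DecidableEq L]

theorem OS_self (w : ℕ → L) (i : ℕ) (x : L) : x ∈ OS w i x := by
  induction i generalizing x with
  | zero => simp [OS]
  | succ i ih =>
    unfold OS
    split_ifs with h
    · exact Finset.mem_union_left _ (ih x)
    · exact ih x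

theorem OS_ne (w : ℕ → L) (i : ℕ) (x : L) (h : x ≠ w i) : OS w (i + 1) x = OS w i x := by
  rw [OS, if_neg h]

theorem OS_eq (w : ℕ → L) (i : ℕ) :
    OS w (i + 1) (w i) = OS w i (w i) ∪ OS w i (w (i + 1)) := by
  rw [OS, if_pos rfl]

theorem OS_next (w : ℕ → L) (i : ℕ) : OS w (i + 1) (w (i + 1)) = OS w i (w (i + 1)) := by
  by_cases h : w (i + 1) = w i
  · rw [OS, if_pos h, Finset.union_self]
  · exact OS_ne w i _ h

/-- the level -/
def lev (w : ℕ → L) (i : ℕ) (x : L) : ℕ := Nat.log 2 (OS w i x).card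

theorem card_pos' (w : ℕ → L) (i : ℕ) (x : L) : (OS w i x).card ≠ 0 :=
  (Finset.card_pos.2 ⟨x, OS_self w i x⟩).ne'

theorem lev_next (w : ℕ → L) (i : ℕ) : lev w (i + 1) (w (i + 1)) = lev w i (w (i + 1)) := by
  unfold lev; rw [OS_next]

theorem lev_ge (w : ℕ → L) (i : ℕ) :
    lev w i (w i) ≤ lev w (i + 1) (w i) ∧ lev w i (w (i + 1)) ≤ lev w (i + 1) (w i) := by
  unfold lev
  rw [OS_eq]
  exact ⟨Nat.log_mono_right (Finset.card_le_card Finset.subset_union_left),
    Nat.log_mono_right (Finset.card_le_card Finset.subset_union_right)⟩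

theorem lev_bad (w : ℕ → L) (i : ℕ) (hd : Disjoint (OS w i (w i)) (OS w i (w (i + 1))))
    (he : lev w i (w i) ≤ lev w i (w (i + 1))) : lev w i (w i) + 1 ≤ lev w (i + 1) (w i) := by
  unfold lev at he ⊢
  rw [OS_eq, Finset.card_union_of_disjoint hd]
  set p := (OS w i (w i)).card with hp
  set q := (OS w i (w (i + 1))).card with hq
  have hp0 : p ≠ 0 := card_pos' w i _
  have hq0 : q ≠ 0 := card_pos' w i _
  apply Nat.le_log_of_pow_le (by norm_num)
  have h1 : 2 ^ Nat.log 2 p ≤ p := Nat.pow_log_le_self 2 hp0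
  have h2 : 2 ^ Nat.log 2 q ≤ q := Nat.pow_log_le_self 2 hq0
  have h3 : 2 ^ Nat.log 2 p ≤ 2 ^ Nat.log 2 q := Nat.pow_le_pow_right (by norm_num) he
  rw [pow_succ]
  omega

theorem sum_step [Fintype L] (w : ℕ → L) (i : ℕ) :
    ∑ x, lev w (i + 1) x + lev w i (w i) = ∑ x, lev w i x + lev w (i + 1) (w i) := by
  rw [← Finset.add_sum_erase _ _ (Finset.mem_univ (w i)),
    ← Finset.add_sum_erase (s := Finset.univ) (f := lev w i) (a := w i) (Finset.mem_univ (w i))]
  have h : ∑ x ∈ Finset.univ.erase (w i), lev w (i + 1) x =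
      ∑ x ∈ Finset.univ.erase (w i), lev w i x := by
    apply Finset.sum_congr rfl
    intro x hx
    unfold lev
    rw [OS_ne w i x (Finset.ne_of_mem_erase hx)]
  rw [h]
  ring

theorem bad_step (w : ℕ → L) (n : ℕ) :
    ((range (n + 1)).filter fun i => Disjoint (OS w i (w i)) (OS w i (w (i + 1)))).card =
      ((range n).filter fun i => Disjoint (OS w i (w i)) (OS w i (w (i + 1)))).card +
        if Disjoint (OS w n (w n)) (OS w n (w (n + 1))) then 1 else 0 := by
  rw [Finset.range_add_one, Finset.filter_insert]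
  split_ifs with h
  · rw [Finset.card_insert_of_notMem (by simp)]
  · rfl

theorem key [Fintype L] (w : ℕ → L) (n : ℕ) :
    ((range n).filter fun i => Disjoint (OS w i (w i)) (OS w i (w (i + 1)))).card +
      lev w n (w n) ≤ 2 * ∑ x, lev w n x := by
  induction n with
  | zero => simp [lev, OS]
  | succ n ih =>
    rw [bad_step, lev_next]
    have h1 := sum_step w n
    have h2 := lev_ge w n
    split_ifs with hd
    · by_cases he : lev w n (w n) ≤ lev w n (w (n + 1))
      · have h3 := lev_bad w n hd he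
        omega
      · omega
    · omega

theorem lev_le [Fintype L] (w : ℕ → L) (i : ℕ) (x : L) :
    lev w i x ≤ Nat.log 2 (Fintype.card L) :=
  Nat.log_mono_right (Finset.card_le_univ _)

end I_Count

/-- The gossip count. -/
theorem Count_pf : S_Count := by
  intro L _ _ w n
  have h1 := I_Count.key w n
  have h2 : ∑ x, I_Count.lev w n x ≤ Fintype.card L * Nat.log 2 (Fintype.card L) := by
    calc ∑ x, I_Count.lev w n x ≤ ∑ _x : L, Nat.log 2 (Fintype.card L) :=
          Finset.sum_le_sum fun x _ => I_Count.lev_le w n x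
      _ = Fintype.card L * Nat.log 2 (Fintype.card L) := by
          rw [Finset.sum_const, Finset.card_univ, smul_eq_mul]
  omega

end Pool.Agent.Work.MP_7794fd_co.M
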