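import Pool.Agent.Work.MP_7794fd_co.M.Stmts

/-! Block M, item Final: the final theorem (bound `4 m floor(log2 m) + 2`).  Same proof as `I_Final2` (helper48). -/

set_option autoImplicit false

namespace Pool.Agent.Work.MP_7794fd_co.M

open Finset Pool.Agent.Work.MP_7794fd_co.R

theorem Final_pf (hCy : S_CycEdge) (hLe : S_Letters) (hW : S_WordMain) (hP : S_PatExt)
    (hE : S_ExtSemi) : S_Final := by
  classical
  intro V E _ _ _ _ G hG C hC hlt e he
  obtain ⟨n, f, c, hcyc, hce, hn⟩ := hCy G C hC e he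
  obtain ⟨br, hbr, hiff⟩ := hLe G C hG hC
  have hfin : (bridgeSets G C).Finite := Set.toFinite _
  have hn2 : 2 ≤ n := hcyc.two
  have hmem : ∀ i, f (i % n) ∈ verts G C := fun i =>
    (hcyc.memf _).2 ⟨i % n, Nat.mod_lt _ (by omega), rfl⟩
  let _ : Fintype (bridgeSets G C) := hfin.fintype
  have hcard : Fintype.card (bridgeSets G C) = (bridgeSets G C).ncard := by
    rw [← Nat.card_eq_fintype_card, Nat.card_coe_set_eq]
  set w : ℕ → bridgeSets G C := fun i => ⟨br (f (i % n)), hbr _ (hmem i)⟩ with hw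
  obtain ⟨F, hF⟩ := hW w n (by rw [hcard, hn]; exact hlt)
  have hrel : ∀ i < n, ∀ j < n, w i = w j ↔ SameBridge G C ∅ (f i) (f j) := by
    intro i hi j hj
    rw [hw]
    simp only [Subtype.mk.injEq]
    rw [Nat.mod_eq_of_lt hi, Nat.mod_eq_of_lt hj]
    have h1 := hmem i
    have h2 := hmem j
    rw [Nat.mod_eq_of_lt hi] at h1
    rw [Nat.mod_eq_of_lt hj] at h2
    exact hiff _ h1 _ h2
  obtain ⟨D, hD, hne, hsub, hcD⟩ := hP G C n f c w F hG hC hcyc hrel hF
  refine ⟨D, hD, hne, hsub, ?_, hE G C D hC hD hne hsub⟩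
  rw [← hce]
  exact hcD

end Pool.Agent.Work.MP_7794fd_co.M
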