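import Pool.Agent.Work.MP_7794fd_co.M.Fin

/-! Project MP_7794fd_co, block M, item PastDeg: the degrees of a path in the past. -/

set_option autoImplicit false

namespace Pool.Agent.Work.MP_7794fd_co.M

open Finset Pool.Agent.Work.MP_7794fd_co.R

namespace I_PastDeg

theorem card_filter_insert {L : Type} [DecidableEq L] (g : ℕ → L) (Z : Finset ℕ) (x : L) (i : ℕ)
    (hi : i ∉ Z) : ((insert i Z).filter fun j => g j = x).card =
      (Z.filter fun j => g j = x).card + (if x = g i then 1 else 0) := by
  rw [Finset.filter_insert]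
  by_cases h : g i = x
  · rw [if_pos h, if_pos h.symm, Finset.card_insert_of_notMem]
    intro h'
    exact hi (Finset.mem_filter.1 h').1
  · rw [if_neg h, if_neg (fun h' => h h'.symm), Nat.add_zero]

/-- the degrees after the insertion of a gap -/
theorem gdeg_insert {L : Type} [DecidableEq L] (w : ℕ → L) (Z : Finset ℕ) (x : L) (i : ℕ)
    (hi : i ∉ Z) : gdeg w (insert i Z) x =
      gdeg w Z x + (if x = w i then 1 else 0) + (if x = w (i + 1) then 1 else 0) := by
  unfold gdeg
  rw [card_filter_insert w Z x i hi, card_filter_insert (fun j => w (j + 1)) Z x i hi]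
  omega

/-- a new gap at the left end -/
theorem degF_left {L : Type} [DecidableEq L] (w : ℕ → L) (Z : Finset ℕ) (Y : Finset L) (a b : L)
    (h : DegF w Z Y a b) (i : ℕ) (hi : i ∉ Z) (hwa : w (i + 1) = a) (hwn : w i ∉ Y) :
    DegF w (insert i Z) (insert (w i) Y) (w i) b := by
  obtain ⟨_, hb, hd⟩ := h
  refine ⟨Finset.mem_insert_self _ _, Finset.mem_insert_of_mem hb, fun x => ?_⟩
  rw [gdeg_insert w Z x i hi, hwa]
  have h := hd x
  by_cases hx : x = w i
  · have hxY : x ∉ Y := hx ▸ hwn
    have hxI : x ∈ insert (w i) Y := by rw [hx]; exact Finset.mem_insert_self _ _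
    rw [if_neg hxY] at h
    rw [if_pos hx, if_pos hxI]
    omega
  · have hiff : x ∈ insert (w i) Y ↔ x ∈ Y := by
      rw [Finset.mem_insert]
      exact ⟨fun h => h.resolve_left hx, Or.inr⟩
    rw [if_neg hx]
    by_cases hxY : x ∈ Y
    · rw [if_pos (hiff.2 hxY)]
      rw [if_pos hxY] at h
      omega
    · rw [if_neg (fun h' => hxY (hiff.1 h'))]
      rw [if_neg hxY] at h
      omega

theorem degF_symm {L : Type} [DecidableEq L] (w : ℕ → L) (Z : Finset ℕ) (Y : Finset L) (a b : L)
    (h : DegF w Z Y a b) : DegF w Z Y b a := by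
  obtain ⟨ha, hb, hd⟩ := h
  refine ⟨hb, ha, fun x => ?_⟩
  rw [← hd x]
  omega

end I_PastDeg

open I_PastDeg in
theorem PastDeg_pf : S_PastDeg := by
  intro L _ w t a b A X h
  induction h with
  | base t z =>
    refine ⟨fun i hi => absurd hi (Finset.notMem_empty i), Finset.mem_singleton_self z,
      Finset.mem_singleton_self z, fun x => ?_⟩
    simp only [gdeg, Finset.filter_empty, Finset.card_empty, Finset.mem_singleton]
    by_cases hx : x = z
    · simp [hx]
    · simp [hx]
  | left t i t' a b A X _ hti hit hwa hwn ih =>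
    obtain ⟨hlt, hdeg⟩ := ih
    have hiA : i ∉ A := fun hi => absurd (hlt i hi) (not_lt.2 hti)
    refine ⟨fun j hj => ?_, degF_left w A X a b hdeg i hiA hwa hwn⟩
    rcases Finset.mem_insert.1 hj with rfl | hj
    · exact hit
    · exact lt_of_lt_of_le (hlt j hj) (le_trans hti hit.le)
  | right t i t' a b A X _ hti hit hwb hwn ih =>
    obtain ⟨hlt, hdeg⟩ := ih
    have hiA : i ∉ A := fun hi => absurd (hlt i hi) (not_lt.2 hti)
    refine ⟨fun j hj => ?_, degF_symm _ _ _ _ _
      (degF_left w A X b a (degF_symm _ _ _ _ _ hdeg) i hiA hwb hwn)⟩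
    rcases Finset.mem_insert.1 hj with rfl | hj
    · exact hit
    · exact lt_of_lt_of_le (hlt j hj) (le_trans hti hit.le)

end Pool.Agent.Work.MP_7794fd_co.M
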