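import Pool.Agent.Work.MP_7794fd_co.M.Fin

/-! Project MP_7794fd_co, block M, item SemLeft: the type of a future path after a new gap at the
left end. -/

set_option autoImplicit false

namespace Pool.Agent.Work.MP_7794fd_co.M

open Finset Pool.Agent.Work.MP_7794fd_co.R

namespace I_SemLeft

/-- labels which do not change are constant -/
theorem cst {lam : ℕ → Bool} {a b : ℕ} (h : ∀ j, a ≤ j → j < b → lam j = lam (j + 1)) :
    ∀ j, a ≤ j → j ≤ b → lam j = lam a := by
  intro j haj
  induction j, haj using Nat.le_induction with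
  | base => intro _; rfl
  | succ n hn ih =>
    intro hb
    rw [← h n hn (by omega)]
    exact ih (by omega)

end I_SemLeft

open I_SemLeft in
theorem SemLeft_pf : S_SemLeft := by
  intro L _ w N s s' i Z x y g hsN his hs'i hZ hwi hsem lam mu hc
  have hC : Comp w s (N - 1) Z lam mu := by
    refine ⟨fun j h1 h2 h3 => hc.seg j (by omega) h2 ?_, fun j h1 h2 h3 =>
      hc.fst j (by omega) h2 (mem_insert_of_mem h3), fun j h1 h2 h3 =>
      hc.snd j (by omega) h2 (mem_insert_of_mem h3)⟩
    rw [mem_insert]
    rintro (h | h)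
    · omega
    · exact h3 h
  obtain ⟨hR, hL⟩ := hsem lam mu hC
  have e1 : lam i = mu x := by
    rw [← hwi]
    exact hc.fst i hs'i (by omega) (mem_insert_self _ _)
  have e2 : lam (i + 1) = mu (w (i + 1)) := hc.snd i hs'i (by omega) (mem_insert_self _ _)
  have c1 : ∀ j, s' ≤ j → j ≤ i → lam j = lam s' := cst fun j h1 h2 =>
    hc.seg j h1 (by omega) (by
      rw [mem_insert]
      rintro (h | h)
      · omega
      · have := (hZ j h).1
        omega)
  have c2 : ∀ j, i + 1 ≤ j → j ≤ s → lam j = lam (i + 1) := cst fun j h1 h2 =>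
    hc.seg j (by omega) (by omega) (by
      rw [mem_insert]
      rintro (h | h)
      · omega
      · have := (hZ j h).1
        omega)
  have e3 : lam s' = mu x := (c1 i hs'i le_rfl).symm.trans e1
  have e4 : lam s = mu (w (i + 1)) := (c2 s (by omega) le_rfl).trans e2
  constructor
  · rw [(rel_sw g (lam (N - 1)) (lam s') (mu (w (i + 1))) (mu y)).1, e3, ← e4]
    exact hR
  · intro c h1 h2 h3 h4 j h5 h6
    rcases le_or_gt j i with h | h
    · rw [c1 j h5 h, h2]
    · rcases le_or_gt j s with h' | h'
      · rw [c2 j (by omega) h', e2, h3]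
      · exact hL c h1 (e4.trans h3) (e3.symm.trans h2) h4 j h'.le h6

end Pool.Agent.Work.MP_7794fd_co.M
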