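import Pool.Agent.Work.MP_7794fd_co.M.Fin

/-! Block M: the theorem on words. -/

set_option autoImplicit false

namespace Pool.Agent.Work.MP_7794fd_co.M

open Finset

namespace I_WordMain

/-- a good gap for both directions -/
theorem exists_good {n K : ℕ} (B1 B2 : Finset ℕ) (h1 : B1.card ≤ 2 * K) (h2 : B2.card ≤ 2 * K)
    (hn : 4 * K + 1 ≤ n) : ∃ i, i < n ∧ i ∉ B1 ∧ n - 1 - i ∉ B2 := by
  by_contra hcon
  push Not at hcon
  have hsub : range n ⊆ B1 ∪ B2.image (fun j => n - 1 - j) := by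
    intro i hi
    rw [mem_range] at hi
    rw [mem_union]
    by_cases hB : i ∈ B1
    · exact Or.inl hB
    · right
      rw [mem_image]
      exact ⟨n - 1 - i, hcon i hi hB, by omega⟩
  have hc := card_le_card hsub
  have hu := card_union_le B1 (B2.image (fun j => n - 1 - j))
  have hi := card_image_le (s := B2) (f := fun j => n - 1 - j)
  rw [card_range] at hc
  omega

end I_WordMain

theorem WordMain_pf (h1 : S_Count) (h2 : S_OPast) (h3 : S_PastSym) (h4 : S_Rev)
    (h5 : S_Single) (h6 : S_LemC) : S_WordMain := by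
  intro L _ _ w N hN
  classical
  have c1 := h1 w (N - 1)
  have c2 := h1 (fun j => w (N - 1 - j)) (N - 1)
  obtain ⟨i, hi, hi1, hi2⟩ := I_WordMain.exists_good (n := N - 1) _ _ c1 c2 (by omega)
  have hiN : i + 1 < N := by omega
  by_cases hw : w i = w (i + 1)
  · exact ⟨_, h5 w N i hiN hw⟩
  have g1 : ¬ Disjoint (OS w i (w i)) (OS w i (w (i + 1))) := by
    intro hd
    exact hi1 (mem_filter.mpr ⟨mem_range.mpr hi, hd⟩)
  have g2 : ¬ Disjoint (OS (fun j => w (N - 1 - j)) (N - 1 - 1 - i) (w (N - 1 - (N - 1 - 1 - i))))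
      (OS (fun j => w (N - 1 - j)) (N - 1 - 1 - i) (w (N - 1 - (N - 1 - 1 - i + 1)))) := by
    intro hd
    exact hi2 (mem_filter.mpr ⟨mem_range.mpr (by omega), hd⟩)
  have e1 : N - 1 - (N - 1 - 1 - i) = i + 1 := by omega
  have e2 : N - 1 - (N - 1 - 1 - i + 1) = i := by omega
  rw [e1, e2] at g2
  obtain ⟨B, Y, hB⟩ := h2 w i _ _ g1
  obtain ⟨A, X, hA⟩ := h2 (fun j => w (N - 1 - j)) (N - 1 - 1 - i) _ _ g2
  have hA' := (h3 (fun j => w (N - 1 - j)) _ _ _ _ _ hA).1
  obtain ⟨A', hA''⟩ := h4 w N (N - 1 - 1 - i) _ _ _ _ (by omega) (by omega) hA'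
  rw [e1] at hA''
  exact h6 w N i A' B X Y hiN hw hB hA''

end Pool.Agent.Work.MP_7794fd_co.M
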