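import Pool.Agent.Work.MP_7794fd_co.R.Stmts

/-! Project MP_7794fd_co, block M: a circuit `C` of a cubic graph with `m` Tutte bridges and at
least `4 m log2 m + 2` vertices has an extension through every prescribed edge of `C`.

Every item is a theorem `X_pf : S_X` in its own file `M/I_X.lean`; the items which it uses are
hypotheses.

THE WORD.  Enumerate the vertices of `C` cyclically as `f 0, ..., f (N-1)` and let `w i` be the
Tutte bridge attached at `f i` (the LETTER of the position `i`).  The GAP `i` is the edge of `C`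
between the positions `i` and `i + 1` (`i + 1 < N`); the edge between `N - 1` and `0` is never used.
A PATTERN is a nonempty set `F` of gaps such that every letter has `0` or `2` ends in `F` and such
that deleting the gaps of `F` from `C` and joining the two ends of every letter by a path in its
bridge gives ONE circuit `D`; this is an extension of `C`.  Connectedness is expressed by labels:
`lam` is a label of the positions, constant between the gaps of `F`, `mu` is the common label of the
two ends of a letter. -/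

set_option autoImplicit false

namespace Pool.Agent.Work.MP_7794fd_co.M

open Finset Pool.Agent.Work.MP_7794fd_co.R

section Words

variable {L : Type} [DecidableEq L]

/-- the number of ends at the letter `x` of the gaps of `F` -/
def gdeg (w : ℕ → L) (F : Finset ℕ) (x : L) : ℕ :=
  (F.filter fun i => w i = x).card + (F.filter fun i => w (i + 1) = x).card

/-- labels of the positions and of the letters which are compatible with the set `F` of gaps in the
window of the positions `s, ..., t` -/
structure Comp (w : ℕ → L) (s t : ℕ) (F : Finset ℕ) (lam : ℕ → Bool) (mu : L → Bool) : Prop where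
  seg : ∀ i, s ≤ i → i < t → i ∉ F → lam i = lam (i + 1)
  fst : ∀ i, s ≤ i → i < t → i ∈ F → lam i = mu (w i)
  snd : ∀ i, s ≤ i → i < t → i ∈ F → lam (i + 1) = mu (w (i + 1))

/-- `F` is a pattern of the word `w 0, ..., w (N - 1)` -/
structure IsPat (w : ℕ → L) (N : ℕ) (F : Finset ℕ) : Prop where
  ne : F.Nonempty
  lt : ∀ i ∈ F, i + 1 < N
  deg : ∀ x, gdeg w F x = 0 ∨ gdeg w F x = 2
  conn : ∀ (lam : ℕ → Bool) (mu : L → Bool), Comp w 0 (N - 1) F lam mu → lam 0 = lam (N - 1) →
    ∀ i < N, lam i = lam 0

/-- An INWARD PATH IN THE PAST: `Past w t a b A X` means that the gaps of `A` (all `< t`) form a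
simple path with ends `a`, `b` and with the set `X` of letters, which grows outwards in time: a new
gap `i` is later than all gaps before, its second letter `w (i+1)` is the present end on one side,
its first letter `w i` is new and becomes the new end. -/
inductive Past (w : ℕ → L) : ℕ → L → L → Finset ℕ → Finset L → Prop
  | base (t : ℕ) (z : L) : Past w t z z ∅ {z}
  | left (t i t' : ℕ) (a b : L) (A : Finset ℕ) (X : Finset L) : Past w t a b A X → t ≤ i →
      i < t' → w (i + 1) = a → w i ∉ X → Past w t' (w i) b (insert i A) (insert (w i) X)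
  | right (t i t' : ℕ) (a b : L) (A : Finset ℕ) (X : Finset L) : Past w t a b A X → t ≤ i →
      i < t' → w (i + 1) = b → w i ∉ X → Past w t' a (w i) (insert i A) (insert (w i) X)

/-- AN INWARD PATH IN THE FUTURE (mirror image of `Past`, `N` positions): the gaps of `A` are
`≥ s`; a new gap `i` is earlier than all gaps before, its first letter `w i` is the present end on
one side, its second letter `w (i+1)` is new and becomes the new end. -/
inductive Fut (w : ℕ → L) (N : ℕ) : ℕ → L → L → Finset ℕ → Finset L → Prop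
  | base (s : ℕ) (z : L) : s < N → Fut w N s z z ∅ {z}
  | left (s i s' : ℕ) (u v : L) (A : Finset ℕ) (X : Finset L) : Fut w N s u v A X → i < s →
      s' ≤ i → w i = u → w (i + 1) ∉ X →
      Fut w N s' (w (i + 1)) v (insert i A) (insert (w (i + 1)) X)
  | right (s i s' : ℕ) (u v : L) (A : Finset ℕ) (X : Finset L) : Fut w N s u v A X → i < s →
      s' ≤ i → w i = v → w (i + 1) ∉ X →
      Fut w N s' u (w (i + 1)) (insert i A) (insert (w (i + 1)) X)

/-- the degrees of a path `Z` with ends `a`, `b` and set `Y` of letters -/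
def DegF (w : ℕ → L) (Z : Finset ℕ) (Y : Finset L) (a b : L) : Prop :=
  a ∈ Y ∧ b ∈ Y ∧ ∀ x, gdeg w Z x + (if x = a then 1 else 0) + (if x = b then 1 else 0) =
    if x ∈ Y then 2 else 0

/-- the three ways to match the four labels `T` (far end), `H` (near end), `x`, `y` (ends of a
path): `0` is `T = H, x = y`, `1` is `H = x, T = y`, `2` is `H = y, T = x` -/
def Rel (g : Fin 3) (T H x y : Bool) : Prop :=
  (g = 0 → T = H ∧ x = y) ∧ (g = 1 → H = x ∧ T = y) ∧ (g = 2 → H = y ∧ T = x)

/-- in the window of the positions `s, ..., t` with far end `f` and near end `n` (past windows: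
`s = f = 0`, `t = n`; future windows: `s = n`, `t = f = N - 1`) the path `Z` with ends `x`, `y` has
the type `g` -/
def Sem (w : ℕ → L) (s t f n : ℕ) (Z : Finset ℕ) (x y : L) (g : Fin 3) : Prop :=
  ∀ (lam : ℕ → Bool) (mu : L → Bool), Comp w s t Z lam mu →
    Rel g (lam f) (lam n) (mu x) (mu y) ∧
    ∀ c : Bool, lam f = c → lam n = c → mu x = c → mu y = c → ∀ i, s ≤ i → i ≤ t → lam i = c

/-- the effect of a new gap at the left end of the path on the type: it exchanges `H` and `x` -/
def swL (g : Fin 3) : Fin 3 := if g = 0 then 2 else if g = 2 then 0 else 1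

/-- the effect of a new gap at the right end of the path on the type: it exchanges `H` and `y` -/
def swR (g : Fin 3) : Fin 3 := if g = 0 then 1 else if g = 1 then 0 else 2

/-- the effect of the exchange of the names of the two ends -/
def fl (g : Fin 3) : Fin 3 := if g = 1 then 2 else if g = 2 then 1 else 0

/-- `H`, `U`, `V` are the labels of the near end and of the two ends of the whole future path, which
has type `g`: the two labels which are not matched to `T` are equal -/
def Join (g : Fin 3) (H U V : Bool) : Prop := (g = 0 → U = V) ∧ (g = 1 → H = U) ∧ (g = 2 → H = V)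

/-- the label which is matched to `T` in the whole future path of type `g` -/
def nearL (g : Fin 3) (H U V : Bool) : Bool := if g = 0 then H else if g = 1 then V else U

/-- The whole future path `A` (ends `u`, `v`, letters `X`) is split at the letter `c` in a path `Z1`
from `u` to `c` and a path `Z2` from `c` to `v`, of types `l` and `r`.  The flag `k` says that the
far end is matched to `c` in one of the two parts (then it belongs to the same curve as `c`). -/
def SplitF (w : ℕ → L) (N s : ℕ) (u v : L) (A : Finset ℕ) (X : Finset L) (k : Bool) (c : L) :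
    Prop :=
  ∃ (Z1 Z2 : Finset ℕ) (Y1 Y2 : Finset L) (l r : Fin 3), Z1 ∪ Z2 = A ∧ Disjoint Z1 Z2 ∧
    Y1 ⊆ X ∧ Y2 ⊆ X ∧ DegF w Z1 Y1 u c ∧ DegF w Z2 Y2 c v ∧
    Sem w s (N - 1) (N - 1) s Z1 u c l ∧ Sem w s (N - 1) (N - 1) s Z2 c v r ∧
    ¬ (l = 1 ∧ r = 2) ∧ (k = true ↔ (l = 1 ∨ r = 2))

/-- The letters `a`, `b` of the whole future path `A` (ends `u`, `v`, letters `X`, type `g`) split
the path in the part `Z` between `a` and `b`, of type `g1`, and the rest `A \ Z`, which has the type
`g2` on `T`, `nearL`, `a`, `b` as soon as the two other labels are joined; and `g1 ≠ g2`. -/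
def PairF (w : ℕ → L) (N s : ℕ) (u v : L) (A : Finset ℕ) (X : Finset L) (g : Fin 3) (a b : L) :
    Prop :=
  ∃ (Z : Finset ℕ) (Y : Finset L) (g1 g2 : Fin 3), Z ⊆ A ∧ Y ⊆ X ∧ DegF w Z Y a b ∧ g1 ≠ g2 ∧
    Sem w s (N - 1) (N - 1) s Z a b g1 ∧
    ∀ (lam : ℕ → Bool) (mu : L → Bool), Comp w s (N - 1) (A \ Z) lam mu →
      Join g (lam s) (mu u) (mu v) →
      Rel g2 (lam (N - 1)) (nearL g (lam s) (mu u) (mu v)) (mu a) (mu b) ∧
      ∀ c : Bool, lam (N - 1) = c → nearL g (lam s) (mu u) (mu v) = c → mu a = c → mu b = c →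
        (lam s = c ∧ mu u = c ∧ mu v = c) ∧ ∀ i, s ≤ i → i ≤ N - 1 → lam i = c

/-- the invariant of the outward growth of a future path; `K c` says on which of the two curves of
`A` (closed by the gap before the window) the letter `c` lies -/
structure Inv (w : ℕ → L) (N s : ℕ) (u v : L) (A : Finset ℕ) (X : Finset L) (g : Fin 3)
    (K : L → Bool) : Prop where
  lt : s < N
  gaps : ∀ j ∈ A, s ≤ j ∧ j + 1 < N
  degs : DegF w A X u v
  sem : Sem w s (N - 1) (N - 1) s A u v g
  ku : K u = decide (g = 2)
  kv : K v = decide (g = 1)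
  split : ∀ c ∈ X, SplitF w N s u v A X (K c) c
  pair : ∀ a ∈ X, ∀ b ∈ X, K a ≠ K b → PairF w N s u v A X g a b

/-- the set of the letters reachable from `x` by directed time-decreasing paths of gaps `< t`:
the gap `i` adds the set of `w (i+1)` to the set of `w i` -/
def OS (w : ℕ → L) : ℕ → L → Finset L
  | 0, x => {x}
  | i + 1, x => if x = w i then OS w i x ∪ OS w i (w (i + 1)) else OS w i x

end Words

/-! ### Past paths -/

/-- Degrees of past paths.  Induction over `Past`: a new gap `i` (not in `A`, as `A < t ≤ i`)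
increases the degree by one at its two letters. -/
def S_PastDeg : Prop := ∀ {L : Type} [DecidableEq L] (w : ℕ → L) (t : ℕ) (a b : L)
  (A : Finset ℕ) (X : Finset L), Past w t a b A X → (∀ i ∈ A, i < t) ∧ DegF w A X a b

/-- Symmetry and monotonicity.  Induction (for the first) and case distinction (for the second). -/
def S_PastSym : Prop := ∀ {L : Type} [DecidableEq L] (w : ℕ → L) (t : ℕ) (a b : L)
  (A : Finset ℕ) (X : Finset L), Past w t a b A X → Past w t b a A X ∧
    ∀ t', t ≤ t' → Past w t' a b A X

/-- The type of a past path.  Induction over `Past`: base: `lam` is constant on the window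
(`g = 0`).  Left step with the gap `i ≥ t`, new window `0, ..., t'` with `t' > i`, `lam, mu`
compatible with `insert i A` on the new window: they are compatible with `A` on the old window (the
elements of `A` are `< t`), `lam` is constant on `t, ..., i` and on `i+1, ..., t'`, hence
`lam t = lam i = mu (w i)` (the new left end) and `lam t' = lam (i+1) = mu (w (i+1)) = mu a` (the old
left end): the labels of the near end and of the left end are exchanged, the type `g` becomes
`swL g`, and for a right step `swR g`.  The last clause of `Sem` is inherited: if the four new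
labels are `c`, so are the four old ones. -/
def S_PastSem : Prop := ∀ {L : Type} [DecidableEq L] (w : ℕ → L) (t : ℕ) (a b : L)
  (A : Finset ℕ) (X : Finset L), Past w t a b A X → ∃ g : Fin 3, Sem w 0 t 0 t A a b g

/-- Splitting a past path at a letter.  Induction over `Past`.  Base: `c = z`.  Left step with the
new end `a' = w i`: if `c = a'` take the trivial path `a'` and the whole path; otherwise `c ∈ X`, the
induction hypothesis gives `a - c` and `c - b`, and the path `a - c` is extended by the gap `i`
(`a' ∉ X1` because `X1 ⊆ X`).  Right step: the same. -/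
def S_PastSplit : Prop := ∀ {L : Type} [DecidableEq L] (w : ℕ → L) (t : ℕ) (a b : L)
  (A : Finset ℕ) (X : Finset L), Past w t a b A X → ∀ c ∈ X,
    ∃ (A1 A2 : Finset ℕ) (X1 X2 : Finset L), Past w t a c A1 X1 ∧ Past w t c b A2 X2 ∧
      X1 ⊆ X ∧ X2 ⊆ X ∧ (c ≠ b → b ∉ X1) ∧ (c ≠ a → a ∉ X2)

/-- A short subpath between two letters with different flags.  Strong induction over `X.card`: if a
letter `c ∈ X ∩ Y` is different from `a` and `b`, split at `c`; `K c ≠ K a` or `K c ≠ K b`, and both
parts have fewer letters. -/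
def S_PastShort : Prop := ∀ {L : Type} [DecidableEq L] (w : ℕ → L) (t : ℕ) (K : L → Bool)
  (Y : Finset L) (a b : L) (A : Finset ℕ) (X : Finset L), Past w t a b A X → a ∈ Y → b ∈ Y →
  K a ≠ K b → ∃ (a' b' : L) (A' : Finset ℕ) (X' : Finset L), Past w t a' b' A' X' ∧ a' ∈ Y ∧
    b' ∈ Y ∧ K a' ≠ K b' ∧ ∀ x ∈ X', x ∈ Y → x = a' ∨ x = b'

/-- Two letters with a common reachable letter are joined by a past path.  Induction over `t`.
`t = 0`: `u = z = v`.  Step: the gap is `t = (x|y)`, `x = w t`, `y = w (t+1)`, only the set of `x`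
changes.  If `u ≠ x`, `v ≠ x`: induction hypothesis and monotonicity.  If `u = v`: base.  If `u = x`,
`v ≠ x`: the common letter is in the old set of `x` (induction hypothesis) or in the old set of `y`:
then there is a path from `y` to `v` with gaps `< t`; if `x` is one of its letters, split it at `x`,
otherwise add the gap `t` at the left end.  `v = x`: the same with `PastSym`. -/
def S_OPast : Prop := ∀ {L : Type} [DecidableEq L] (w : ℕ → L) (t : ℕ) (u v : L),
  ¬ Disjoint (OS w t u) (OS w t v) → ∃ (A : Finset ℕ) (X : Finset L), Past w t u v A X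

/-! ### The gossip count -/

/-- THE GOSSIP COUNT.  Put `lev i x = Nat.log 2 (OS w i x).card` (the set contains `x`, so it is
nonempty), `K = Nat.log 2 (card L)`.  (a) `lev` is monotone in `i`, `lev 0 x = 0`, `lev i x ≤ K`.
(b) Let `r i = lev (i+1) (w i) - lev i (w i)`; all other letters keep their level at the gap `i`, so
the sum of `r i` over `i < n` is the sum over `x` of `lev n x`, which is at most `card L * K`.
(c) Let `a i = lev i (w i)`.  Then `a (i+1) = lev i (w (i+1))` (also if `w i = w (i+1)`, as then
nothing changes), and `lev (i+1) (w i) ≥ a (i+1)` because the new set contains `OS w i (w (i+1))`;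
hence `a (i+1) - a i ≤ r i`.  (d) If the two sets at the gap `i` are disjoint and `a i ≤ a (i+1)`
then `r i ≥ 1`: for `a i < a (i+1)` by (c), for `a i = a (i+1) = h` both sets have at least `2^h`
elements and their disjoint union has at least `2^(h+1)`.  (e) So the number of bad gaps is at most
the sum of the `r i` plus the number of `i` with `a (i+1) < a i`, and this number is at most the sum
of the positive parts of `a i - a (i+1)`, which is `a 0 - a n` + (sum of the positive parts of
`a (i+1) - a i`) `≤` the sum of the `r i` (`a 0 = 0`). -/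
def S_Count : Prop := ∀ {L : Type} [Fintype L] [DecidableEq L] (w : ℕ → L) (n : ℕ),
  ((range n).filter fun i => Disjoint (OS w i (w i)) (OS w i (w (i + 1)))).card ≤
    2 * (Fintype.card L * Nat.log 2 (Fintype.card L))

/-! ### Future paths -/

/-- Types of future paths: the symmetry. -/
def S_SemFl : Prop := ∀ {L : Type} [DecidableEq L] (w : ℕ → L) (s t f n : ℕ) (Z : Finset ℕ)
  (x y : L) (g : Fin 3), Sem w s t f n Z x y g → Sem w s t f n Z y x (fl g)

/-- Types of future paths: a larger window without new gaps (`lam` is constant on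
`s', ..., s`). -/
def S_SemSkip : Prop := ∀ {L : Type} [DecidableEq L] (w : ℕ → L) (N s s' : ℕ) (Z : Finset ℕ)
  (x y : L) (g : Fin 3), s < N → s' ≤ s → (∀ j ∈ Z, s ≤ j ∧ j + 1 < N) →
  Sem w s (N - 1) (N - 1) s Z x y g → Sem w s' (N - 1) (N - 1) s' Z x y g

/-- Types of future paths: a new gap `i` at the left end.  As in `PastSem`: `lam s' = lam i =
mu (w i) = mu x` and `lam s = lam (i+1) = mu (w (i+1))`, so the labels of the near end and of the
left end are exchanged. -/
def S_SemLeft : Prop := ∀ {L : Type} [DecidableEq L] (w : ℕ → L) (N s s' i : ℕ) (Z : Finset ℕ)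
  (x y : L) (g : Fin 3), s < N → i < s → s' ≤ i → (∀ j ∈ Z, s ≤ j ∧ j + 1 < N) → w i = x →
  Sem w s (N - 1) (N - 1) s Z x y g →
    Sem w s' (N - 1) (N - 1) s' (insert i Z) (w (i + 1)) y (swL g)

/-- Degrees: a new gap at the left end, and the symmetry. -/
def S_DegLeft : Prop := ∀ {L : Type} [DecidableEq L] (w : ℕ → L) (Z : Finset ℕ) (Y : Finset L)
  (a b : L), DegF w Z Y a b → DegF w Z Y b a ∧
    ∀ i, i ∉ Z → w i = a → w (i + 1) ∉ Y →
      DegF w (insert i Z) (insert (w (i + 1)) Y) (w (i + 1)) b

/-- The invariant: base. -/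
def S_InvBase : Prop := ∀ {L : Type} [DecidableEq L] (w : ℕ → L) (N s : ℕ) (z : L), s < N →
  Inv w N s z z ∅ {z} 0 (fun _ => false)

/-- The invariant: symmetry (`Join`, `nearL`, `Rel` with `fl g` and `u`, `v` exchanged; in `SplitF`
the two parts are exchanged). -/
def S_InvFl : Prop := ∀ {L : Type} [DecidableEq L] (w : ℕ → L) (N s : ℕ) (u v : L)
  (A : Finset ℕ) (X : Finset L) (g : Fin 3) (K : L → Bool), Inv w N s u v A X g K →
  Inv w N s v u A X (fl g) K

/-- `SplitF` for an old letter after a left step: `Z1` is extended by the gap `i`, `Z2` is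
unchanged. -/
def S_SplitOld : Prop := ∀ {L : Type} [DecidableEq L] (w : ℕ → L) (N s s' i : ℕ) (u v : L)
  (A : Finset ℕ) (X : Finset L) (k : Bool) (c : L), s < N → (∀ j ∈ A, s ≤ j ∧ j + 1 < N) →
  i < s → s' ≤ i → w i = u → w (i + 1) ∉ X → SplitF w N s u v A X k c →
    SplitF w N s' (w (i + 1)) v (insert i A) (insert (w (i + 1)) X) k c

/-- `PairF` for two old letters after a left step.  The part `Z` is unchanged (`SemSkip`).  The rest
is extended by the gap `i`: for compatible labels `lam s' = mu u` and `lam s = mu (w (i+1))`, i.e.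
the labels of the near end and of the left end are exchanged, and `Join (swL g) H U V` is
`Join g U H V`, `nearL (swL g) H U V = nearL g U H V`. -/
def S_PairOld : Prop := ∀ {L : Type} [DecidableEq L] (w : ℕ → L) (N s s' i : ℕ) (u v : L)
  (A : Finset ℕ) (X : Finset L) (g : Fin 3) (a b : L), s < N → (∀ j ∈ A, s ≤ j ∧ j + 1 < N) →
  i < s → s' ≤ i → w i = u → w (i + 1) ∉ X → PairF w N s u v A X g a b →
    PairF w N s' (w (i + 1)) v (insert i A) (insert (w (i + 1)) X) (swL g) a b

/-- THE KEY POINT: the pair `c`, `u` where `u` is an end of the whole path of type `g`, if the flag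
`k` of `c` is different from the flag `g = 2` of `u`.  Take `Z = Z1` (the part from `u` to `c`, of
type `g1 = fl l` for the ends `c`, `u`), the rest is `Z2`, of type `r` for the ends `c`, `v`.  With
`H = lam s`, `b = mu u`, `V = mu v`, `a = mu c`: from `Rel r T H a V` and `Join g H b V` one gets
`Rel g2 T (nearL g H b V) a b` with `g2 ≠ fl l`; this is a finite check over `l, r, g` and the labels
(`decide`).  (By hand: `k = true, g ≠ 2`: if `r = 2` then `g2 = 2`, i.e. `H' = b, T = a`, but
`l ∈ {0, 2}` and `fl l ∈ {0, 1}`; if `l = 1`, `r ∈ {0, 1}` then `fl l = 2`, but `g2 ≠ 2`.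
`k = false, g = 2`: `r ∈ {0, 1}` and `H = V`, `H' = b`, so `T = a`, `g2 = 2`, and `l ≠ 1`.)  If the
four labels `T, nearL, a, b` are `c0` then all labels are `c0`. -/
def S_PairNew : Prop := ∀ {L : Type} [DecidableEq L] (w : ℕ → L) (N s : ℕ) (u v : L)
  (A : Finset ℕ) (X : Finset L) (g : Fin 3) (k : Bool) (c : L), s < N →
  SplitF w N s u v A X k c → k ≠ decide (g = 2) → PairF w N s u v A X g c u

/-- `PairF` is symmetric in the two letters. -/
def S_PairFl : Prop := ∀ {L : Type} [DecidableEq L] (w : ℕ → L) (N s : ℕ) (u v : L)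
  (A : Finset ℕ) (X : Finset L) (g : Fin 3) (a b : L), PairF w N s u v A X g a b →
  PairF w N s u v A X g b a

/-- The invariant: a left step (from the items above).  For the new letter `c = w (i+1)` `SplitF`
holds with `Z1 = ∅`, `l = 0`, `Z2` = the whole path, `r = swL g`.  The pairs of two old letters are
`PairOld`, the pairs with the new letter `PairNew` and `PairFl`. -/
def S_InvLeft : Prop := ∀ {L : Type} [DecidableEq L] (w : ℕ → L) (N s s' i : ℕ) (u v : L)
  (A : Finset ℕ) (X : Finset L) (g : Fin 3) (K : L → Bool), Inv w N s u v A X g K →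
  i < s → s' ≤ i → w i = u → w (i + 1) ∉ X →
    Inv w N s' (w (i + 1)) v (insert i A) (insert (w (i + 1)) X) (swL g)
      (Function.update K (w (i + 1)) (decide (swL g = 2)))

/-- The invariant holds for every future path.  Induction over `Fut`; a right step is a left step
between two applications of `InvFl`. -/
def S_FutInv : Prop := ∀ {L : Type} [DecidableEq L] (w : ℕ → L) (N s : ℕ) (u v : L)
  (A : Finset ℕ) (X : Finset L), Fut w N s u v A X →
  ∃ (g : Fin 3) (K : L → Bool), Inv w N s u v A X g K

/-- Reversal: a past path of the reversed word is a future path.  Induction over `Past` for the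
word `w' i = w (N - 1 - i)`; the gap `i'` of `w'` is the gap `N - 2 - i'` of `w`; window:
`t' ≤ N - 1` gives `s = N - 1 - t'`. -/
def S_Rev : Prop := ∀ {L : Type} [DecidableEq L] (w : ℕ → L) (N t : ℕ) (u v : L)
  (A : Finset ℕ) (X : Finset L), 0 < N → t ≤ N - 1 →
  Past (fun i => w (N - 1 - i)) t u v A X → ∃ A' : Finset ℕ, Fut w N (N - 1 - t) u v A' X

/-! ### Patterns -/

/-- A gap with two equal letters is a pattern. -/
def S_Single : Prop := ∀ {L : Type} [DecidableEq L] (w : ℕ → L) (N i : ℕ), i + 1 < N →
  w i = w (i + 1) → IsPat w N {i}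

/-- The gap `t = (u|v)` with a future path of type `g ≠ 2` is a pattern: `lam` is constant on
`0, ..., t` with value `mu u`, so `T = lam (N-1) = lam 0 = mu u`, and `H = lam (t+1) = mu v`;
`Rel g T H (mu u) (mu v)` with `g ≠ 2` gives that all four labels are equal. -/
def S_Close : Prop := ∀ {L : Type} [DecidableEq L] (w : ℕ → L) (N t : ℕ) (A : Finset ℕ)
  (X : Finset L) (g : Fin 3), t + 1 < N → w t ≠ w (t + 1) → (∀ j ∈ A, t + 1 ≤ j ∧ j + 1 < N) →
  DegF w A X (w t) (w (t + 1)) → Sem w (t + 1) (N - 1) (N - 1) (t + 1) A (w t) (w (t + 1)) g →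
  g ≠ 2 → IsPat w N (insert t A)

/-- THE THETA LEMMA.  `A` is the future path from `u = w t` to `v = w (t+1)`, of type `2`, `B` is a
past path of type `m` between two letters `a`, `b` of `X`, which has no other letter in `X`.  Take
`Z, g1, g2` from `PairF`.  If `m ≠ g1` then `B ∪ Z` is a pattern (in the full window `t` is not in
the set, `lam t = lam (t+1)`; the past gives `Rel m T H a b`, the future gives `Rel g1 T H a b`, so
`T, H, a, b` have the same label).  Otherwise `m ≠ g2` and `B ∪ (A \ Z) ∪ {t}` is a pattern: here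
`lam t = mu u` and `lam (t+1) = mu v`, which is `Join 2`, and `nearL 2 = mu u = lam t`.  Degrees by
`DegF`: the gaps of `B` are `< t`, those of `A` are `> t`; the degree in `{t}` of `x` is
`[x = u] + [x = v]`. -/
def S_Theta : Prop := ∀ {L : Type} [DecidableEq L] (w : ℕ → L) (N t : ℕ) (A B : Finset ℕ)
  (X Y : Finset L) (a b : L) (m : Fin 3), t + 1 < N → w t ≠ w (t + 1) →
  (∀ j ∈ A, t + 1 ≤ j ∧ j + 1 < N) → DegF w A X (w t) (w (t + 1)) →
  PairF w N (t + 1) (w t) (w (t + 1)) A X 2 a b → (∀ j ∈ B, j < t) → DegF w B Y a b →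
  Sem w 0 t 0 t B a b m → a ≠ b → (∀ x ∈ Y, x ∈ X → x = a ∨ x = b) → ∃ F, IsPat w N F

/-- LEMMA C.  If the two letters of a gap are joined by a past path and by a future path then there
is a pattern.  From `FutInv` take `g, K`.  If `g ≠ 2` use `Close`.  If `g = 2` then `K (w t) = true`
and `K (w (t+1)) = false`; `PastShort` for the letters `X` of the future path gives a past path
between `a, b ∈ X` with `K a ≠ K b` without other letters in `X`; use `Theta`. -/
def S_LemC : Prop := ∀ {L : Type} [DecidableEq L] (w : ℕ → L) (N t : ℕ) (A B : Finset ℕ)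
  (X Y : Finset L), t + 1 < N → w t ≠ w (t + 1) → Past w t (w t) (w (t + 1)) B Y →
  Fut w N (t + 1) (w t) (w (t + 1)) A X → ∃ F, IsPat w N F

/-- THE THEOREM ON WORDS.  Let `K = card L * Nat.log 2 (card L)`.  By `Count` at most `2 * K` gaps
`i < N - 1` have disjoint sets `OS w i (w i)`, `OS w i (w (i+1))`, and at most `2 * K` gaps `i` are
such that for the reversed word `w' j = w (N - 1 - j)` and `i' = N - 2 - i` the sets
`OS w' i' (w' i')`, `OS w' i' (w' (i'+1))` are disjoint; there are `N - 1 ≥ 4 * K + 1` gaps.  Take a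
gap which is good for both; if its two letters are equal use `Single`, otherwise `OPast`, `Rev`,
`PastSym` and `LemC` (`w' i' = w (i+1)`, `w' (i'+1) = w i`). -/
def S_WordMain : Prop := ∀ {L : Type} [Fintype L] [DecidableEq L] (w : ℕ → L) (N : ℕ),
  4 * (Fintype.card L * Nat.log 2 (Fintype.card L)) + 2 ≤ N → ∃ F, IsPat w N F

/-- The pairing of a pattern.  The positions used by `F` are `i` and `i + 1` for `i ∈ F`.  (1) If
`i, i + 1 ∈ F` then the letter `w (i+1)` has its two ends at the position `i + 1`, and the label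
`lam = [j = i + 1]`, `mu x = [x = w (i+1)]` is compatible: contradiction to `conn` (`i + 1` is
neither `0` nor `N - 1`).  (2) By `deg` every used position has exactly one other used position with
the same letter (by (1) the `2 |F|` ends are different positions). -/
def S_PatPair : Prop := ∀ {L : Type} [DecidableEq L] (w : ℕ → L) (N : ℕ) (F : Finset ℕ),
  IsPat w N F → (∀ i ∈ F, i + 1 ∉ F) ∧
    ∃ pr : ℕ → ℕ, ∀ i ∈ F ∪ F.image (· + 1), pr i ∈ F ∪ F.image (· + 1) ∧ pr i ≠ i ∧
      pr (pr i) = i ∧ w (pr i) = w i ∧ ∀ j ∈ F ∪ F.image (· + 1), w j = w i → j = i ∨ j = pr i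

/-! ### Graphs -/

section Graphs

variable {V E : Type} [Fintype V] [DecidableEq V] [Fintype E] [DecidableEq E] (G : MG V E)

/-- `Q` is a path from `v` to `w` in the Tutte bridge of `C` attached at `v` and `w` -/
structure IsBPath (C Q : Finset E) (v w : V) : Prop where
  disj : Disjoint C Q
  dv : deg G Q v = 1
  dw : deg G Q w = 1
  dC : ∀ z ∈ verts G C, z ≠ v → z ≠ w → deg G Q z = 0
  dO : ∀ z, z ∉ verts G C → deg G Q z = 0 ∨ deg G Q z = 2
  att : ∀ z, z ∉ verts G C → deg G Q z ≠ 0 → v ∈ att G C ∅ z ∧ w ∈ att G C ∅ z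
  link : ∀ a ∈ Q, ∀ b ∈ Q, Linked G Set.univ Q a b

/-- the attachment sets of the Tutte bridges of the circuit `C` (in a cubic graph different bridges
have disjoint attachment sets, so their number is the number of Tutte bridges of `C` with at least
one attachment) -/
def bridgeSets (C : Finset E) : Set (Set V) :=
  {A | A.Nonempty ∧ ((∃ e, e ∉ C ∧ (∀ x ∈ G.ends e, x ∈ verts G C) ∧ A = {x | x ∈ G.ends e}) ∨
    ∃ u, u ∉ verts G C ∧ A = att G C ∅ u)}

/-- `Q` is the union of the paths belonging to a pairing `pr` of the positions in `P` -/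
structure IsQ0 (C : Finset E) (n : ℕ) (f : ℕ → V) (P : Finset ℕ) (pr : ℕ → ℕ) (Q : Finset E) :
    Prop where
  disj : Disjoint C Q
  degC : ∀ i < n, deg G Q (f i) = if i ∈ P then 1 else 0
  degO : ∀ z, z ∉ verts G C → deg G Q z = 0 ∨ deg G Q z = 2
  link : ∀ i ∈ P, ∀ a ∈ Q, ∀ b ∈ Q, f i ∈ G.ends a → f (pr i) ∈ G.ends b →
    Linked G Set.univ Q a b
  meet : ∀ a ∈ Q, ∃ i ∈ P, ∃ b ∈ Q, f i ∈ G.ends b ∧ Linked G Set.univ Q a b

end Graphs

/-- Two vertices of `C` in the same bridge are joined by a path in the bridge.  Chord: the edge.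
Otherwise `StPath` (`R/Path.lean`) with `W` = the complement of `verts G C`; model:
`R/BridgePath.lean` (there with a path `P`, here `P = ∅`). -/
def S_BPath : Prop := ∀ {V E : Type} [Fintype V] [DecidableEq V] [Fintype E] [DecidableEq E]
  (G : MG V E) (C : Finset E), Cubic G → IsCircuit G C →
  ∀ v ∈ verts G C, ∀ w ∈ verts G C, v ≠ w → SameBridge G C ∅ v w → ∃ Q, IsBPath G C Q v w

/-- The union of the paths of a pairing; different pairs lie in different bridges, so the paths are
disjoint.  Model: `R/Paths.lean`. -/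
def S_Paths0 : Prop := ∀ {V E : Type} [Fintype V] [DecidableEq V] [Fintype E] [DecidableEq E]
  (G : MG V E) (C : Finset E) (n : ℕ) (f : ℕ → V) (c : ℕ → E) (P : Finset ℕ) (pr : ℕ → ℕ),
  Cubic G → IsCircuit G C → IsCyc G C n f c → (∀ i ∈ P, i < n ∧ pr i ∈ P ∧ pr i ≠ i ∧
    pr (pr i) = i ∧ SameBridge G C ∅ (f i) (f (pr i)) ∧
    ∀ j ∈ P, SameBridge G C ∅ (f i) (f j) → j = i ∨ j = pr i) → ∃ Q, IsQ0 G C n f P pr Q

/-- The circuit of a pattern.  `P = F ∪ (F + 1)`, `D = (C without the edges c i, i ∈ F) ∪ Q`.
Degrees: an unused vertex of `C` has its two edges of `C`, a used vertex has exactly one edge of `C`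
in `D` (`i ∈ F → i + 1 ∉ F`) and one edge of `Q`.  Connected: fix an edge `e0` of `D`, let `lam i`
say that some edge of `D` at `f i` is linked to `e0` in `D` (then all are), `mu x` the common value
of the two used positions with the letter `x`; this is compatible, `lam 0 = lam (n-1)` by the edge
`c (n-1)`, so `lam` is constant; every edge of `D` is linked to an edge of `D` at some `f i`.  Models:
`R/Side.lean`. -/
def S_Circ : Prop := ∀ {V E L : Type} [Fintype V] [DecidableEq V] [Fintype E] [DecidableEq E]
  [DecidableEq L] (G : MG V E) (C : Finset E) (n : ℕ) (f : ℕ → V) (c : ℕ → E) (w : ℕ → L)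
  (F : Finset ℕ) (pr : ℕ → ℕ) (Q : Finset E), Cubic G → IsCircuit G C → IsCyc G C n f c →
  IsPat w n F → (∀ i ∈ F, i + 1 ∉ F) →
  (∀ i ∈ F ∪ F.image (· + 1), pr i ∈ F ∪ F.image (· + 1) ∧ pr i ≠ i ∧ pr (pr i) = i ∧
    w (pr i) = w i ∧ ∀ j ∈ F ∪ F.image (· + 1), w j = w i → j = i ∨ j = pr i) →
  IsQ0 G C n f (F ∪ F.image (· + 1)) pr Q →
  ∃ D, IsCircuit G D ∧ D ≠ C ∧ verts G C ⊆ verts G D ∧ c (n - 1) ∈ D

/-- From a pattern of the word of the bridges to an extension (from `PatPair`, `BPath` inside
`Paths0`, `Circ`). -/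
def S_PatExt : Prop := ∀ {V E L : Type} [Fintype V] [DecidableEq V] [Fintype E] [DecidableEq E]
  [DecidableEq L] (G : MG V E) (C : Finset E) (n : ℕ) (f : ℕ → V) (c : ℕ → E) (w : ℕ → L)
  (F : Finset ℕ), Cubic G → IsCircuit G C → IsCyc G C n f c →
  (∀ i < n, ∀ j < n, w i = w j ↔ SameBridge G C ∅ (f i) (f j)) → IsPat w n F →
  ∃ D, IsCircuit G D ∧ D ≠ C ∧ verts G C ⊆ verts G D ∧ c (n - 1) ∈ D

/-- A cyclic enumeration which ends with a prescribed edge.  From `StCyc` (`R/Cyc.lean`) with
`f 0 = x`, `x` an end of `e`: `e = c 0` or `e = c (n-1)`; in the first case reverse the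
enumeration. -/
def S_CycEdge : Prop := ∀ {V E : Type} [Fintype V] [DecidableEq V] [Fintype E] [DecidableEq E]
  (G : MG V E) (C : Finset E), IsCircuit G C → ∀ e ∈ C,
    ∃ (n : ℕ) (f : ℕ → V) (c : ℕ → E), IsCyc G C n f c ∧ c (n - 1) = e ∧
      n = (verts G C).ncard

/-- The bridge attached at a vertex of `C`: the third edge at `v` is a chord or goes to an outside
vertex. -/
def S_Letters : Prop := ∀ {V E : Type} [Fintype V] [DecidableEq V] [Fintype E] [DecidableEq E]
  (G : MG V E) (C : Finset E), Cubic G → IsCircuit G C → ∃ br : V → Set V,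
    (∀ v ∈ verts G C, br v ∈ bridgeSets G C) ∧
    ∀ v ∈ verts G C, ∀ w ∈ verts G C, br v = br w ↔ SameBridge G C ∅ v w

/-- An extension is a semi-extension (all placements are of the first kind). -/
def S_ExtSemi : Prop := ∀ {V E : Type} [Fintype V] [DecidableEq V] [Fintype E] [DecidableEq E]
  (G : MG V E) (C D : Finset E), IsCircuit G C → IsCircuit G D → D ≠ C →
  verts G C ⊆ verts G D → IsSemiExt G C D

/-- THE FINAL THEOREM.  From `CycEdge`, `Letters`, `WordMain` (with the type of letters
`{A // A ∈ bridgeSets G C}` and `w i = br (f (i % n))`), `PatExt`, `ExtSemi`. -/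
def S_Final : Prop := ∀ {V E : Type} [Fintype V] [DecidableEq V] [Fintype E] [DecidableEq E]
  (G : MG V E), Cubic G → ∀ C : Finset E, IsCircuit G C →
  4 * ((bridgeSets G C).ncard * Nat.log 2 (bridgeSets G C).ncard) + 2 ≤ (verts G C).ncard →
  ∀ e ∈ C, ∃ D, IsCircuit G D ∧ D ≠ C ∧ verts G C ⊆ verts G D ∧ e ∈ D ∧ IsSemiExt G C D

end Pool.Agent.Work.MP_7794fd_co.M
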