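import Pool.Agent.Work.MP_7794fd_co.M.Stmts

/-! Project MP_7794fd_co, block M, second part: the better gossip count (note 3980) and its
consequences: `m ^ (2 m) < 2 ^ (N - 1)` instead of `4 m floor(log2 m) + 2 ≤ N`. -/

set_option autoImplicit false

namespace Pool.Agent.Work.MP_7794fd_co.M

open Finset Pool.Agent.Work.MP_7794fd_co.R

/-- THE GOSSIP COUNT, multiplicative form.  Let `s i x = (OS w i x).card ≥ 1`,
`Π i = ∏ x, s i x ≤ m ^ m` (`m = card L`), `D i` the number of bad gaps `< i`.  Claim: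
`4 ^ D n * s n (w n) ≤ (Π n) ^ 2`.  Induction: `s 0 = 1`.  Step: only the set of `w n` changes, so
`Π (n+1) * s n (w n) = Π n * s (n+1) (w n)`, and `s (n+1) (w (n+1)) = s n (w (n+1))` (also if
`w (n+1) = w n`).  Put `p = s n (w n)`, `q = s n (w (n+1))`, `p' = s (n+1) (w n)`.  If the sets are
disjoint, `p' = p + q`, `p' ^ 2 ≥ 4 p q`.  In general `p' ≥ p, q`, so `p' ^ 2 ≥ p q`.  Hence
`(Π (n+1)) ^ 2 * p ^ 2 = (Π n) ^ 2 * p' ^ 2 ≥ 4 ^ D n * p * (4 or 1) * p * q`; divide by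
`p ^ 2`. -/
def S_Count2 : Prop := ∀ {L : Type} [Fintype L] [DecidableEq L] (w : ℕ → L) (n : ℕ),
  2 ^ ((range n).filter fun i => Disjoint (OS w i (w i)) (OS w i (w (i + 1)))).card ≤
    Fintype.card L ^ Fintype.card L

/-- THE THEOREM ON WORDS with the better bound: as `WordMain`, if `D, D'` are the numbers of bad
gaps for `w` and for the reversed word then `2 ^ (D + D') ≤ m ^ (2 m) < 2 ^ (N - 1)`, so
`D + D' < N - 1`. -/
def S_WordMain2 : Prop := ∀ {L : Type} [Fintype L] [DecidableEq L] (w : ℕ → L) (N : ℕ),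
  Fintype.card L ^ (2 * Fintype.card L) < 2 ^ (N - 1) → ∃ F, IsPat w N F

/-- THE FINAL THEOREM with the better bound. -/
def S_Final2 : Prop := ∀ {V E : Type} [Fintype V] [DecidableEq V] [Fintype E] [DecidableEq E]
  (G : MG V E), Cubic G → ∀ C : Finset E, IsCircuit G C →
  (bridgeSets G C).ncard ^ (2 * (bridgeSets G C).ncard) < 2 ^ ((verts G C).ncard - 1) →
  ∀ e ∈ C, ∃ D, IsCircuit G D ∧ D ≠ C ∧ verts G C ⊆ verts G D ∧ e ∈ D ∧ IsSemiExt G C D

end Pool.Agent.Work.MP_7794fd_co.M
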